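import Pool.Agent.H3.SA.Defs

set_option autoImplicit false

/-!
# [H3 SA BAS] Bases of Lagrangian subspaces

* `lag_self`: `U` is its own orthogonal: `w` is a nondegenerate bilinear form on `V k` (`w_nondeg`) of dimension `2 k`, `finrank U = k` (`lag_card`, `Module.natCard_eq_pow_finrank`), so `finrank U^⊥ = k` (`LinearMap.BilinForm.finrank_orthogonal` or
  `finrank_add_finrank_orthogonal'`), `U ⊆ U^⊥` (`lag_w`).  (Compare `lkr_self` in `H94.PN.LKR`, private.)
* `bas`: a basis `u` of `U` (`Module.finBasisOfFinrankEq`); the coordinates `x ↦ b.repr x m` on `U` extend to linear functions on `V k` (`LinearMap.exists_extend`), and each linear function on `V k` is `w (v, .)` for some `v` (nondegenerate: the map `v ↦ w v` from `V k` to its dual is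
  injective (`w_nondeg`, `w_comm`), so bijective, `LinearMap.BilinForm.toDual` or `LinearMap.injective_iff_surjective_of_finrank_eq_finrank`).
* `lag_card_pos`, `ext_lin`: for every linear `g : U → ZMod 2` there is `s` with `w u s = g u` for `u ∈ U` (the same argument).
-/

namespace Pool.Agent.H3.SA

open Pool.Agent.H94.PN

variable {k : ℕ} {U : Submodule (ZMod 2) (V k)}

/-- the polar form as a linear map -/
private noncomputable def wL (k : ℕ) : V k →ₗ[ZMod 2] Module.Dual (ZMod 2) (V k) :=
  LinearMap.mk₂ (ZMod 2) w w_add_left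
    (fun c u v => by
      rcases z2 c with rfl | rfl
      · rw [zero_smul, zero_smul, w_zero_left]
      · rw [one_smul, one_smul])
    w_add_right
    (fun c u v => by
      rcases z2 c with rfl | rfl
      · rw [zero_smul, zero_smul, w_zero_right]
      · rw [one_smul, one_smul])

private theorem bas_ext (g : U →ₗ[ZMod 2] ZMod 2) : ∃ s : V k, ∀ u : U, w (u : V k) s = g u := by
  obtain ⟨G, hG⟩ := LinearMap.exists_extend g
  have hinj : Function.Injective (wL k) := by
    rw [← LinearMap.ker_eq_bot, LinearMap.ker_eq_bot']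
    intro u hu
    exact w_nondeg fun v => congrArg (fun f : Module.Dual (ZMod 2) (V k) => f v) hu
  have hsur : Function.Surjective (wL k) :=
    (LinearMap.injective_iff_surjective_of_finrank_eq_finrank
      (Subspace.dual_finrank_eq).symm).1 hinj
  obtain ⟨s, hs⟩ := hsur G
  refine ⟨s, fun u => ?_⟩
  rw [w_comm]
  have h1 : wL k s u = G u := by rw [hs]
  have h2 : G u = g u := congrArg (fun f : U →ₗ[ZMod 2] ZMod 2 => f u) hG
  exact h1.trans h2

private theorem bas_fin (hU : Lag 2 k U) : Module.finrank (ZMod 2) U = k := by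
  have h1 := Module.natCard_eq_pow_finrank (K := ZMod 2) (V := U)
  rw [lag_card hU, Nat.card_zmod] at h1
  exact (Nat.pow_right_injective le_rfl h1).symm

theorem lag_self (hU : Lag 2 k U) {x : V k} (h : ∀ u ∈ U, w u x = 0) : x ∈ U := by
  have hUk := bas_fin hU
  obtain ⟨φ, hφ⟩ : ∃ φ : V k →ₗ[ZMod 2] Module.Dual (ZMod 2) U,
      ∀ (v : V k) (u : U), φ v u = w (u : V k) v :=
    ⟨U.subtype.dualMap ∘ₗ wL k, fun v u => w_comm _ _⟩
  have hs : Function.Surjective φ := by
    intro g
    obtain ⟨s, hs⟩ := bas_ext g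
    refine ⟨s, ?_⟩
    ext u
    rw [hφ]
    exact hs u
  have h1 := φ.finrank_range_add_finrank_ker
  rw [LinearMap.range_eq_top.2 hs, finrank_top, Subspace.dual_finrank_eq, hUk,
    Module.finrank_prod, Module.finrank_fin_fun] at h1
  have hle : U ≤ LinearMap.ker φ := by
    intro y hy
    rw [LinearMap.mem_ker]
    ext u
    rw [hφ]
    exact lag_w hU u.2 hy
  have h2 : U = LinearMap.ker φ := Submodule.eq_of_le_of_finrank_eq hle (by omega)
  rw [h2, LinearMap.mem_ker]
  ext u
  rw [hφ]
  exact h u u.2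

theorem ext_lin (g : U →ₗ[ZMod 2] ZMod 2) : ∃ s : V k, ∀ u : U, w (u : V k) s = g u := by
  exact bas_ext g

theorem bas (hU : Lag 2 k U) : ∃ u v : Fin k → V k, (∀ m, u m ∈ U) ∧
    (∀ m n, w (u m) (v n) = if m = n then 1 else 0) ∧
    ∀ x ∈ U, x = ∑ m, w (v m) x • u m := by
  classical
  obtain ⟨b, hb⟩ : ∃ b : Module.Basis (Fin k) (ZMod 2) U, b = Module.finBasisOfFinrankEq _ _ (bas_fin hU) :=
    ⟨_, rfl⟩
  choose s hs using fun m : Fin k => ext_lin (b.coord m)
  refine ⟨fun m => b m, s, fun m => (b m).2, fun m n => ?_, fun x hx => ?_⟩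
  · rw [hs, Module.Basis.coord_apply, Module.Basis.repr_self, Finsupp.single_apply]
  · have h1 := b.sum_repr ⟨x, hx⟩
    have h2 := congrArg (fun y : U => (y : V k)) h1
    simp only [Submodule.coe_sum, Submodule.coe_smul] at h2
    rw [← h2]
    refine Finset.sum_congr rfl fun m _ => ?_
    rw [h2, w_comm, hs m ⟨x, hx⟩, Module.Basis.coord_apply]

end Pool.Agent.H3.SA
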