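import Pool.Agent.H3.SA.THR

set_option autoImplicit false

/-!
# [H3 SA CNT] The number of the labellings with few labels

`n = card S`, `Med 0, Med 1, Med 2` pairwise disjoint, `L - δ ≤ card (Med i) ≤ L + δ`, `n - ∑ i, card (Med i) ≤ δ`.
* `cnt_sub`: the number of the `z : S → V k` with `z p ∈ T i` for `p ∈ Med i` is at most `∏ i, card (T i) ^ card (Med i) * (4 ^ k) ^ (n - ∑ i, card (Med i))` (it is equal: `Fintype.piFinset`, a set for each `p`; `card (V k) = 4 ^ k`).  For `1 ≤ card (T i) ≤ 4 ^ k`: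
  `card (T i) ^ card (Med i) ≤ card (T i) ^ L * (4 ^ k) ^ δ` (if `card (Med i) ≤ L` the second factor is not needed, if not `card (Med i) - L ≤ δ`).  So the number is at most `(∏ i, card (T i)) ^ L * (4 ^ k) ^ (4 * δ)`.
* `cnt_sml`: a `z` with `Sml` is counted for the triple `T i = im z (Med i)` (non-empty sets), with product `≤ 8 ^ k - 1`; there are at most `8 ^ (4 ^ k)` triples.  So `#{Sml} ≤ 8 ^ (4 ^ k) * (8 ^ k - 1) ^ L * 4 ^ (4 * k * δ)`, and
  `(8 ^ k) ^ L = 2 ^ (3 k L)`, `n ≥ 3 L - 3 δ` (if `δ ≤ L`; `card (Med i) + δ ≥ L` in any case), so `2 ^ (k n) * 2 ^ (3 k δ) ≥ 2 ^ (3 k L)`, and `4 ^ k * card W ^ k ≥ 2 ^ (k n)` by `hW`.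
  So `#{Sml} ≤ 8 ^ (4 ^ k) * (1 - 1 / 8 ^ k) ^ L * 2 ^ (8 k δ) * 2 ^ (3 k L) ≤ 8 ^ (4 ^ k) * 4 ^ k * (1 - 1 / 8 ^ k) ^ L * 2 ^ (11 k δ) * card W ^ k`.
* `cnt_ul`: the same with `≤ 8 ^ k` for all `z` with `UL Med c z` (`thr`).
-/

namespace Pool.Agent.H3.SA

open Pool.Agent.H94.PN

variable {S : Type} [Finite S]

private theorem s3cnt_cardV (k : ℕ) : Fintype.card (V k) = 4 ^ k := by
  have h : Fintype.card (V k) = 2 ^ k * 2 ^ k := by
    show Fintype.card ((Fin k → ZMod 2) × (Fin k → ZMod 2)) = _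
    rw [Fintype.card_prod, Fintype.card_fun, ZMod.card, Fintype.card_fin]
  rw [h, ← mul_pow]
  norm_num

/-- the labellings with labels in three given sets -/
private theorem s3cnt_sub {Med : Fin 3 → Finset S}
    (hd : ∀ i j, i ≠ j → Disjoint (Med i) (Med j)) {L δ : ℕ}
    (h2 : ∀ i, (Med i).card ≤ L + δ)
    (h3 : Nat.card S ≤ (Med 0).card + (Med 1).card + (Med 2).card + δ) {k : ℕ}
    (T : Fin 3 → Finset (V k)) (hT : ∀ i, 1 ≤ (T i).card) :
    (FS (fun z : S → V k => Sub Med T z)).card ≤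
      ((T 0).card * (T 1).card * (T 2).card) ^ L * (4 ^ k) ^ (4 * δ) := by
  classical
  have hF : Fintype S := Fintype.ofFinite S
  have h4 : 1 ≤ 4 ^ k := Nat.one_le_pow _ _ (by norm_num)
  set g : S → Finset (V k) := fun p => Finset.univ.filter (fun v => ∀ i, p ∈ Med i → v ∈ T i)
    with hg
  have hsub : FS (fun z : S → V k => Sub Med T z) ⊆ Fintype.piFinset g := by
    intro z hz
    rw [mem_FS] at hz
    rw [Fintype.mem_piFinset]
    intro p
    rw [hg, Finset.mem_filter]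
    exact ⟨Finset.mem_univ _, fun i hi => hz i p hi⟩
  refine (Finset.card_le_card hsub).trans ?_
  rw [Fintype.card_piFinset]
  set U : Finset S := Finset.univ.biUnion Med with hU
  have hcU : U.card = (Med 0).card + (Med 1).card + (Med 2).card := by
    rw [hU, Finset.card_biUnion (fun i _ j _ hij => hd i j hij), Fin.sum_univ_three]
  have hle : ∀ p, (g p).card ≤ 4 ^ k := by
    intro p
    refine (Finset.card_le_univ _).trans ?_
    rw [s3cnt_cardV]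
  have hleT : ∀ i, ∀ p ∈ Med i, (g p).card ≤ (T i).card := by
    intro i p hp
    refine Finset.card_le_card fun v hv => ?_
    rw [hg, Finset.mem_filter] at hv
    exact hv.2 i hp
  have hT4 : ∀ i, (T i).card ≤ 4 ^ k := by
    intro i
    refine (Finset.card_le_univ _).trans ?_
    rw [s3cnt_cardV]
  have hA : ∏ p ∈ U, (g p).card ≤ ∏ i : Fin 3, ((T i).card ^ L * (4 ^ k) ^ δ) := by
    rw [hU, Finset.prod_biUnion (fun i _ j _ hij => hd i j hij)]
    refine Finset.prod_le_prod' fun i _ => ?_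
    calc ∏ p ∈ Med i, (g p).card ≤ ∏ _p ∈ Med i, (T i).card :=
          Finset.prod_le_prod' fun p hp => hleT i p hp
      _ = (T i).card ^ (Med i).card := Finset.prod_const _
      _ ≤ (T i).card ^ (L + δ) := Nat.pow_le_pow_right (hT i) (h2 i)
      _ = (T i).card ^ L * (T i).card ^ δ := pow_add _ _ _
      _ ≤ (T i).card ^ L * (4 ^ k) ^ δ :=
          Nat.mul_le_mul_left _ (Nat.pow_le_pow_left (hT4 i) δ)
  have hB : ∏ p ∈ Uᶜ, (g p).card ≤ (4 ^ k) ^ δ := by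
    calc ∏ p ∈ Uᶜ, (g p).card ≤ ∏ _p ∈ Uᶜ, 4 ^ k := Finset.prod_le_prod' fun p _ => hle p
      _ = (4 ^ k) ^ Uᶜ.card := Finset.prod_const _
      _ ≤ (4 ^ k) ^ δ := by
          refine Nat.pow_le_pow_right h4 ?_
          rw [Finset.card_compl, hcU, ← Nat.card_eq_fintype_card]
          omega
  rw [← Finset.prod_mul_prod_compl U]
  refine (Nat.mul_le_mul hA hB).trans (le_of_eq ?_)
  rw [Fin.prod_univ_three]
  ring

/-- the union bound over the triples of sets -/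
private theorem s3cnt_main {Med : Fin 3 → Finset S} (hne : ∀ i, (Med i).Nonempty)
    (hd : ∀ i j, i ≠ j → Disjoint (Med i) (Med j)) {L δ : ℕ}
    (h2 : ∀ i, (Med i).card ≤ L + δ)
    (h3 : Nat.card S ≤ (Med 0).card + (Med 1).card + (Med 2).card + δ) {k : ℕ}
    (P : (S → V k) → Prop) (B : ℕ)
    (hP : ∀ z, P z → (im z (Med 0)).card * (im z (Med 1)).card * (im z (Med 2)).card ≤ B) :
    (FS P).card ≤ 8 ^ (4 ^ k) * (B ^ L * (4 ^ k) ^ (4 * δ)) := by
  classical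
  set Tr : Finset (Fin 3 → Finset (V k)) := Finset.univ.filter (fun T =>
    (∀ i, 1 ≤ (T i).card) ∧ (T 0).card * (T 1).card * (T 2).card ≤ B) with hTr
  have hsub : FS P ⊆ Tr.biUnion (fun T => FS (fun z : S → V k => Sub Med T z)) := by
    intro z hz
    rw [mem_FS] at hz
    rw [Finset.mem_biUnion]
    refine ⟨fun i => im z (Med i), ?_, ?_⟩
    · rw [hTr, Finset.mem_filter]
      refine ⟨Finset.mem_univ _, fun i => ?_, hP z hz⟩
      exact Finset.card_pos.mpr ((hne i).image z)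
    · rw [mem_FS]
      intro i p hp
      exact Finset.mem_image_of_mem z hp
  have hTc : Tr.card ≤ 8 ^ (4 ^ k) := by
    refine (Finset.card_le_univ _).trans ?_
    rw [Fintype.card_fun, Fintype.card_finset, s3cnt_cardV, Fintype.card_fin, ← pow_mul, mul_comm,
      pow_mul]
    norm_num
  calc (FS P).card ≤ (Tr.biUnion (fun T => FS (fun z : S → V k => Sub Med T z))).card :=
        Finset.card_le_card hsub
    _ ≤ ∑ T ∈ Tr, (FS (fun z : S → V k => Sub Med T z)).card := Finset.card_biUnion_le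
    _ ≤ ∑ _T ∈ Tr, B ^ L * (4 ^ k) ^ (4 * δ) := by
        refine Finset.sum_le_sum fun T hT => ?_
        rw [hTr, Finset.mem_filter] at hT
        exact (s3cnt_sub hd h2 h3 T hT.2.1).trans
          (Nat.mul_le_mul_right _ (Nat.pow_le_pow_left hT.2.2 L))
    _ = Tr.card * (B ^ L * (4 ^ k) ^ (4 * δ)) := by rw [Finset.sum_const, smul_eq_mul]
    _ ≤ 8 ^ (4 ^ k) * (B ^ L * (4 ^ k) ^ (4 * δ)) := Nat.mul_le_mul_right _ hTc

/-- `8 ^ (k L)` in terms of the number of the elements of `W` -/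
private theorem s3cnt_pow (f : Frm S) {Med : Fin 3 → Finset S}
    (hd : ∀ i j, i ≠ j → Disjoint (Med i) (Med j)) {L δ : ℕ}
    (h1 : ∀ i, L ≤ (Med i).card + δ)
    (hW : 2 ^ Nat.card S ≤ 4 * Nat.card f.W) (k : ℕ) :
    ((8 : ℝ) ^ k) ^ L ≤ 4 ^ k * 2 ^ (3 * k * δ) * (Nat.card f.W : ℝ) ^ k := by
  classical
  have hF : Fintype S := Fintype.ofFinite S
  have hcU : (Med 0).card + (Med 1).card + (Med 2).card ≤ Nat.card S := by
    have h := Finset.card_le_univ (Finset.univ.biUnion Med)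
    rw [Finset.card_biUnion (fun i _ j _ hij => hd i j hij), Fin.sum_univ_three,
      ← Nat.card_eq_fintype_card] at h
    exact h
  have h3L : 3 * L ≤ Nat.card S + 3 * δ := by
    have a := h1 0
    have b := h1 1
    have c := h1 2
    omega
  have e1 : (8 ^ k) ^ L ≤ 4 ^ k * 2 ^ (3 * k * δ) * (Nat.card f.W) ^ k := by
    calc (8 ^ k) ^ L = 2 ^ (k * (3 * L)) := by
          rw [show (8 : ℕ) = 2 ^ 3 from rfl, ← pow_mul, ← pow_mul]
          congr 1
          ring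
      _ ≤ 2 ^ (k * (Nat.card S + 3 * δ)) :=
          Nat.pow_le_pow_right (by norm_num) (Nat.mul_le_mul_left k h3L)
      _ = (2 ^ Nat.card S) ^ k * 2 ^ (3 * k * δ) := by
          rw [← pow_mul, ← pow_add]
          congr 1
          ring
      _ ≤ (4 * Nat.card f.W) ^ k * 2 ^ (3 * k * δ) :=
          Nat.mul_le_mul_right _ (Nat.pow_le_pow_left hW k)
      _ = 4 ^ k * 2 ^ (3 * k * δ) * (Nat.card f.W) ^ k := by
          rw [mul_pow]
          ring
  exact_mod_cast e1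

theorem cnt_sml (f : Frm S) {Med : Fin 3 → Finset S} (hne : ∀ i, (Med i).Nonempty)
    (hd : ∀ i j, i ≠ j → Disjoint (Med i) (Med j)) {L δ : ℕ}
    (h1 : ∀ i, L ≤ (Med i).card + δ) (h2 : ∀ i, (Med i).card ≤ L + δ)
    (h3 : Nat.card S ≤ (Med 0).card + (Med 1).card + (Med 2).card + δ)
    (hW : 2 ^ Nat.card S ≤ 4 * Nat.card f.W) (k : ℕ) :
    ((FS (fun z : S → V k => Sml Med z)).card : ℝ) ≤
      8 ^ (4 ^ k) * 4 ^ k * (1 - 1 / 8 ^ k) ^ L * 2 ^ (11 * k * δ) * (Nat.card f.W : ℝ) ^ k := by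
  have h8 : 1 ≤ 8 ^ k := Nat.one_le_pow _ _ (by norm_num)
  have hm := s3cnt_main hne hd h2 h3 (fun z : S → V k => Sml Med z) (8 ^ k - 1)
    (fun z hz => Nat.le_sub_one_of_lt hz)
  have hm' : ((FS (fun z : S → V k => Sml Med z)).card : ℝ) ≤
      8 ^ (4 ^ k) * (((8 : ℝ) ^ k - 1) ^ L * (4 ^ k) ^ (4 * δ)) := by
    have h : ((FS (fun z : S → V k => Sml Med z)).card : ℝ) ≤
        ((8 ^ (4 ^ k) * ((8 ^ k - 1) ^ L * (4 ^ k) ^ (4 * δ)) : ℕ) : ℝ) := by
      exact_mod_cast hm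
    rw [Nat.cast_mul, Nat.cast_mul, Nat.cast_pow, Nat.cast_pow, Nat.cast_sub h8, Nat.cast_pow,
      Nat.cast_pow, Nat.cast_pow] at h
    exact_mod_cast h
  have hp := s3cnt_pow f hd h1 hW k
  have h80 : (0 : ℝ) < 8 ^ k := by positivity
  have h81 : (1 : ℝ) ≤ 8 ^ k := by exact_mod_cast h8
  have hnn : (0 : ℝ) ≤ (1 - 1 / 8 ^ k) ^ L := by
    refine pow_nonneg ?_ L
    rw [sub_nonneg, div_le_one h80]
    exact h81
  have he : ((8 : ℝ) ^ k - 1) ^ L = (1 - 1 / 8 ^ k) ^ L * (8 ^ k) ^ L := by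
    rw [← mul_pow]
    congr 1
    field_simp
  have h4 : ((4 : ℝ) ^ k) ^ (4 * δ) = 2 ^ (8 * k * δ) := by
    rw [show (4 : ℝ) = 2 ^ 2 by norm_num, ← pow_mul, ← pow_mul]
    congr 1
    ring
  refine hm'.trans ?_
  rw [he, h4]
  calc (8 : ℝ) ^ (4 ^ k) * ((1 - 1 / 8 ^ k) ^ L * (8 ^ k) ^ L * 2 ^ (8 * k * δ)) ≤
      8 ^ (4 ^ k) * ((1 - 1 / 8 ^ k) ^ L * (4 ^ k * 2 ^ (3 * k * δ) * (Nat.card f.W : ℝ) ^ k) *
        2 ^ (8 * k * δ)) := by gcongr
    _ = 8 ^ (4 ^ k) * 4 ^ k * (1 - 1 / 8 ^ k) ^ L * 2 ^ (11 * k * δ) * (Nat.card f.W : ℝ) ^ k := by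
        rw [show 11 * k * δ = 3 * k * δ + 8 * k * δ by ring, pow_add]
        ring

theorem cnt_ul (f : Frm S) {Med : Fin 3 → Finset S} (hne : ∀ i, (Med i).Nonempty)
    (hd : ∀ i j, i ≠ j → Disjoint (Med i) (Med j)) {L δ : ℕ}
    (h1 : ∀ i, L ≤ (Med i).card + δ) (h2 : ∀ i, (Med i).card ≤ L + δ)
    (h3 : Nat.card S ≤ (Med 0).card + (Med 1).card + (Med 2).card + δ)
    (hW : 2 ^ Nat.card S ≤ 4 * Nat.card f.W) (k : ℕ) (c : ZMod 2) :
    ((FS (fun z : S → V k => UL Med c z)).card : ℝ) ≤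
      8 ^ (4 ^ k) * 4 ^ k * 2 ^ (11 * k * δ) * (Nat.card f.W : ℝ) ^ k := by
  have hm := s3cnt_main hne hd h2 h3 (fun z : S → V k => UL Med c z) (8 ^ k)
    (fun z hz => by
      refine thr (c := c) ((hne 0).image z) ((hne 1).image z) ((hne 2).image z) ?_
      intro i hi j hj l hl
      unfold im at hi hj hl
      rw [Finset.mem_image] at hi hj hl
      obtain ⟨p, hp, rfl⟩ := hi
      obtain ⟨r, hr, rfl⟩ := hj
      obtain ⟨t, ht, rfl⟩ := hl
      exact hz p hp r hr t ht)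
  have hm' : ((FS (fun z : S → V k => UL Med c z)).card : ℝ) ≤
      8 ^ (4 ^ k) * (((8 : ℝ) ^ k) ^ L * (4 ^ k) ^ (4 * δ)) := by
    exact_mod_cast hm
  have hp := s3cnt_pow f hd h1 hW k
  have h4 : ((4 : ℝ) ^ k) ^ (4 * δ) = 2 ^ (8 * k * δ) := by
    rw [show (4 : ℝ) = 2 ^ 2 by norm_num, ← pow_mul, ← pow_mul]
    congr 1
    ring
  refine hm'.trans ?_
  rw [h4]
  calc (8 : ℝ) ^ (4 ^ k) * ((8 ^ k) ^ L * 2 ^ (8 * k * δ)) ≤
      8 ^ (4 ^ k) * ((4 ^ k * 2 ^ (3 * k * δ) * (Nat.card f.W : ℝ) ^ k) *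
        2 ^ (8 * k * δ)) := by gcongr
    _ = 8 ^ (4 ^ k) * 4 ^ k * 2 ^ (11 * k * δ) * (Nat.card f.W : ℝ) ^ k := by
        rw [show 11 * k * δ = 3 * k * δ + 8 * k * δ by ring, pow_add]
        ring

end Pool.Agent.H3.SA
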