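import Pool.Agent.H3.SA.TS

set_option autoImplicit false

/-!
# [H3 SA THR] Three sets of labels with constant `q (i + j + l)`

Fix `i₀ ∈ I`, `j₀ ∈ J`, `l₀ ∈ K`; `A, B, C` the subspaces spanned by the `i + i₀` (`i ∈ I`), the `j + j₀`, the `l + l₀`.
* the second differences of `q`: for `i ∈ I`, `j ∈ J`: `w (i + i₀) (j + j₀) = q (i + j + l₀) + q (i₀ + j + l₀) + q (i + j₀ + l₀) + q (i₀ + j₀ + l₀) = 0` (`q_add`, characteristic `2`); so `w = 0` on `A × B`, the same for `A × C`, `B × C`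
  (`Submodule.span_induction` twice).
* `finrank A + finrank B ≤ 2 k` etc. (`w` nondegenerate: `B ⊆ A^⊥`, `finrank A^⊥ = 2 k - finrank A`), so `finrank A + finrank B + finrank C ≤ 3 k`; `card I ≤ card A = 2 ^ finrank A` (`i ↦ i + i₀` is injective from `I` to `A`).  `thr`.
* `thr_eq`: equality gives `card I = 2 ^ finrank A` etc. and `finrank A + finrank B + finrank C = 3 k`; each pair has sum at most `2 k`, so all pair sums are `2 k` and all are `k` (three numbers with pair sums `≤ 2 k` and total `3 k`: `a = 3 k - (b + c) ≥ k`, so all `= k`).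
  `B = A^⊥ = C` and `C = B^⊥` (dimensions), so `C = A^⊥`, `B = C`, and `A = B^⊥`, `A = C^⊥ = B^⊥`; `w = 0` on `B × C = B × B`, so `B ⊆ B^⊥ = A`, `A = B = C = U` is Lagrangian (`Lag`: the third condition is void for `ℓ = 2`; the second is `w = 0` on `U`).
  `I = {x | x + i₀ ∈ U}` (`I` maps injectively into `U`, same cardinality), for `i₀` an arbitrary element of `I`; the same for `J`, `K`.  `q (i₀ + j₀ + l₀ + u) = c` for all `u ∈ U` (`i₀ + u ∈ I`), so `i₀ + j₀ + l₀ ∈ TU U` (`tu_of_const`) and `c = 0` (`tu_q`).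
-/

namespace Pool.Agent.H3.SA

open Pool.Agent.H94.PN

variable {k : ℕ} {I J K : Finset (V k)} {c : ZMod 2}

private theorem thr_wsmul (a : ZMod 2) (u v : V k) : w (a • u) v = a * w u v := by
  rcases z2 a with rfl | rfl
  · rw [zero_smul, w_zero_left, zero_mul]
  · rw [one_smul, one_mul]

private noncomputable def thrB (k : ℕ) : LinearMap.BilinForm (ZMod 2) (V k) :=
  LinearMap.mk₂ (ZMod 2) w w_add_left (fun a u v => thr_wsmul a u v) w_add_right
    (fun a u v => by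
      show w u (a • v) = a • w u v
      rw [w_comm, thr_wsmul, w_comm v, smul_eq_mul])

private theorem thrB_apply (u v : V k) : thrB k u v = w u v := rfl

private theorem thrB_nd (k : ℕ) : (thrB k).Nondegenerate :=
  ⟨fun _ h => w_nondeg h, fun x h => w_nondeg fun v => by rw [w_comm]; exact h v⟩

private theorem thr_fin (k : ℕ) : Module.finrank (ZMod 2) (V k) = 2 * k := by
  rw [Module.finrank_prod, Module.finrank_fin_fun]
  ring

private theorem thr_perp {A B : Submodule (ZMod 2) (V k)} (h : ∀ x ∈ A, ∀ y ∈ B, w x y = 0) :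
    B ≤ (thrB k).orthogonal A := by
  intro y hy
  rw [LinearMap.BilinForm.mem_orthogonal_iff]
  intro x hx
  exact h x hx y hy

private theorem thr_perp_fin (A : Submodule (ZMod 2) (V k)) :
    Module.finrank (ZMod 2) A + Module.finrank (ZMod 2) ((thrB k).orthogonal A) = 2 * k := by
  have h1 := LinearMap.BilinForm.finrank_orthogonal (thrB_nd k) A
  have h2 := Submodule.finrank_le A
  rw [thr_fin] at h1 h2
  omega

private theorem thr_two {A B : Submodule (ZMod 2) (V k)} (h : ∀ x ∈ A, ∀ y ∈ B, w x y = 0) :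
    Module.finrank (ZMod 2) A + Module.finrank (ZMod 2) B ≤ 2 * k := by
  have h1 := Submodule.finrank_mono (thr_perp h)
  have h2 := thr_perp_fin A
  omega

private theorem thr_eqperp {A B : Submodule (ZMod 2) (V k)} (h : ∀ x ∈ A, ∀ y ∈ B, w x y = 0)
    (hA : Module.finrank (ZMod 2) A = k) (hB : Module.finrank (ZMod 2) B = k) :
    B = (thrB k).orthogonal A := by
  have h2 := thr_perp_fin A
  exact Submodule.eq_of_le_of_finrank_eq (thr_perp h) (by omega)

/-- the space of the differences -/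
private def thrS (I : Finset (V k)) (i : V k) : Submodule (ZMod 2) (V k) :=
  Submodule.span (ZMod 2) {x | ∃ i' ∈ I, x = i' + i}

private theorem thrS_mem {I : Finset (V k)} {i' : V k} (h : i' ∈ I) (i : V k) : i' + i ∈ thrS I i :=
  Submodule.subset_span ⟨i', h, rfl⟩

private theorem thr_span {I J : Finset (V k)} {i₀ j₀ : V k}
    (h : ∀ i ∈ I, ∀ j ∈ J, w (i + i₀) (j + j₀) = 0) :
    ∀ x ∈ thrS I i₀, ∀ y ∈ thrS J j₀, w x y = 0 := by
  intro x hx
  refine Submodule.span_induction (p := fun x _ => ∀ y ∈ thrS J j₀, w x y = 0) ?_ ?_ ?_ ?_ hx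
  · rintro x ⟨i, hi, rfl⟩ y hy
    refine Submodule.span_induction (p := fun y _ => w (i + i₀) y = 0) ?_ ?_ ?_ ?_ hy
    · rintro y ⟨j, hj, rfl⟩
      exact h i hi j hj
    · exact w_zero_right _
    · intro y y' _ _ h1 h2
      rw [w_add_right, h1, h2, add_zero]
    · intro a y _ h1
      rw [w_comm, thr_wsmul, w_comm, h1, mul_zero]
  · intro y _
    exact w_zero_left _
  · intro x x' _ _ h1 h2 y hy
    rw [w_add_left, h1 y hy, h2 y hy, add_zero]
  · intro a x _ h1 y hy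
    rw [thr_wsmul, h1 y hy, mul_zero]

private theorem thr_diff {i i₀ j j₀ l : V k} (h1 : q (i + j + l) = c) (h2 : q (i₀ + j + l) = c)
    (h3 : q (i + j₀ + l) = c) (h4 : q (i₀ + j₀ + l) = c) : w (i + i₀) (j + j₀) = 0 := by
  have two : (2 : ZMod 2) = 0 := rfl
  simp only [q_add, w_add_left, w_add_right] at h1 h2 h3 h4 ⊢
  linear_combination h1 + h2 + h3 + h4 + (2 * c - (q i + q j + q i₀ + q j₀ + 2 * q l + w i l +
    w j l + w i₀ l + w j₀ l)) * two

private theorem thr_card_le {I : Finset (V k)} (i₀ : V k) :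
    I.card ≤ 2 ^ Module.finrank (ZMod 2) (thrS I i₀) := by
  have h1 : Nat.card (thrS I i₀) = 2 ^ Module.finrank (ZMod 2) (thrS I i₀) := by
    rw [Module.natCard_eq_pow_finrank (K := ZMod 2), Nat.card_zmod]
  rw [← h1]
  have h2 : I.card = Nat.card {x // x ∈ I} := by
    rw [Nat.card_eq_fintype_card, Fintype.card_coe]
  rw [h2]
  refine Nat.card_le_card_of_injective (fun i : {x // x ∈ I} => (⟨i.1 + i₀, thrS_mem i.2 i₀⟩ :
    thrS I i₀)) ?_
  intro x y hxy
  have h3 := congrArg Subtype.val hxy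
  exact Subtype.ext (add_right_cancel h3)

private theorem thr_main {i₀ j₀ l₀ : V k} (hi : i₀ ∈ I) (hj : j₀ ∈ J) (hl : l₀ ∈ K)
    (h : ∀ i ∈ I, ∀ j ∈ J, ∀ l ∈ K, q (i + j + l) = c) :
    (∀ x ∈ thrS I i₀, ∀ y ∈ thrS J j₀, w x y = 0) ∧
    (∀ x ∈ thrS I i₀, ∀ y ∈ thrS K l₀, w x y = 0) ∧
    (∀ x ∈ thrS J j₀, ∀ y ∈ thrS K l₀, w x y = 0) := by
  refine ⟨thr_span fun i hi' j hj' => ?_, thr_span fun i hi' l hl' => ?_,
    thr_span fun j hj' l hl' => ?_⟩
  · exact thr_diff (h i hi' j hj' l₀ hl) (h i₀ hi j hj' l₀ hl) (h i hi' j₀ hj l₀ hl)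
      (h i₀ hi j₀ hj l₀ hl)
  · have e : ∀ a b : V k, a + b + j₀ = a + j₀ + b := fun a b => by abel
    refine thr_diff (l := j₀) (c := c) ?_ ?_ ?_ ?_
    · rw [e]; exact h i hi' j₀ hj l hl'
    · rw [e]; exact h i₀ hi j₀ hj l hl'
    · rw [e]; exact h i hi' j₀ hj l₀ hl
    · rw [e]; exact h i₀ hi j₀ hj l₀ hl
  · have e : ∀ a b : V k, a + b + i₀ = i₀ + a + b := fun a b => by abel
    refine thr_diff (l := i₀) (c := c) ?_ ?_ ?_ ?_
    · rw [e]; exact h i₀ hi j hj' l hl'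
    · rw [e]; exact h i₀ hi j₀ hj l hl'
    · rw [e]; exact h i₀ hi j hj' l₀ hl
    · rw [e]; exact h i₀ hi j₀ hj l₀ hl

private theorem thr_pow {a b d x y z : ℕ} (hx : x ≤ 2 ^ a) (hy : y ≤ 2 ^ b) (hz : z ≤ 2 ^ d)
    (h1 : a + b ≤ 2 * k) (h2 : a + d ≤ 2 * k) (h3 : b + d ≤ 2 * k) : x * y * z ≤ 8 ^ k := by
  calc x * y * z ≤ 2 ^ a * 2 ^ b * 2 ^ d := Nat.mul_le_mul (Nat.mul_le_mul hx hy) hz
    _ = 2 ^ (a + b + d) := by rw [pow_add, pow_add]
    _ ≤ 2 ^ (3 * k) := Nat.pow_le_pow_right (by norm_num) (by omega)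
    _ = 8 ^ k := by rw [pow_mul, show (2 : ℕ) ^ 3 = 8 from rfl]

private theorem thr_pow_eq {a b d x y z : ℕ} (hx : x ≤ 2 ^ a) (hy : y ≤ 2 ^ b) (hz : z ≤ 2 ^ d)
    (h1 : a + b ≤ 2 * k) (h2 : a + d ≤ 2 * k) (h3 : b + d ≤ 2 * k) (h : x * y * z = 8 ^ k) :
    a = k ∧ b = k ∧ d = k ∧ x = 2 ^ k ∧ y = 2 ^ k ∧ z = 2 ^ k := by
  have h8 : (8 : ℕ) ^ k = 2 ^ (3 * k) := by rw [pow_mul, show (2 : ℕ) ^ 3 = 8 from rfl]
  have e1 : a + b + d = 3 * k := by
    by_contra hne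
    have h4 : 2 ^ (a + b + d) < 2 ^ (3 * k) := Nat.pow_lt_pow_right (by norm_num) (by omega)
    have h5 : x * y * z ≤ 2 ^ a * 2 ^ b * 2 ^ d := Nat.mul_le_mul (Nat.mul_le_mul hx hy) hz
    rw [← pow_add, ← pow_add] at h5
    omega
  have ha : a = k := by omega
  have hb : b = k := by omega
  have hd : d = k := by omega
  subst ha
  subst hb
  subst hd
  have h0 : 0 < x * y * z := by
    rw [h]
    positivity
  have hx0 : 0 < x := Nat.pos_of_ne_zero fun h6 => by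
    rw [h6, zero_mul, zero_mul] at h0
    exact lt_irrefl _ h0
  have hy0 : 0 < y := Nat.pos_of_ne_zero fun h6 => by
    rw [h6, mul_zero, zero_mul] at h0
    exact lt_irrefl _ h0
  have hz0 : 0 < z := Nat.pos_of_ne_zero fun h6 => by
    rw [h6, mul_zero] at h0
    exact lt_irrefl _ h0
  have h8' : x * y * z = 2 ^ d * 2 ^ d * 2 ^ d := by
    rw [h, h8, ← pow_add, ← pow_add]
    congr 1
    ring
  refine ⟨rfl, rfl, rfl, ?_, ?_, ?_⟩
  · refine le_antisymm hx (not_lt.1 fun h6 => ?_)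
    have h7 : x * y * z < 2 ^ d * 2 ^ d * 2 ^ d :=
      calc x * y * z < 2 ^ d * y * z :=
            Nat.mul_lt_mul_of_pos_right (Nat.mul_lt_mul_of_pos_right h6 hy0) hz0
        _ ≤ 2 ^ d * 2 ^ d * 2 ^ d := Nat.mul_le_mul (Nat.mul_le_mul le_rfl hy) hz
    omega
  · refine le_antisymm hy (not_lt.1 fun h6 => ?_)
    have h7 : x * y * z < 2 ^ d * 2 ^ d * 2 ^ d :=
      calc x * y * z < x * 2 ^ d * z :=
            Nat.mul_lt_mul_of_pos_right (Nat.mul_lt_mul_of_pos_left h6 hx0) hz0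
        _ ≤ 2 ^ d * 2 ^ d * 2 ^ d := Nat.mul_le_mul (Nat.mul_le_mul hx le_rfl) hz
    omega
  · refine le_antisymm hz (not_lt.1 fun h6 => ?_)
    have h7 : x * y * z < 2 ^ d * 2 ^ d * 2 ^ d :=
      calc x * y * z < x * y * 2 ^ d :=
            Nat.mul_lt_mul_of_pos_left h6 (Nat.mul_pos hx0 hy0)
        _ ≤ 2 ^ d * 2 ^ d * 2 ^ d := Nat.mul_le_mul (Nat.mul_le_mul hx hy) le_rfl
    omega

private theorem thr_two_add (a : V k) : a + a = 0 := by
  have h : ∀ b : ZMod 2, b + b = 0 := fun b => CharTwo.add_self_eq_zero b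
  exact Prod.ext (funext fun i => h _) (funext fun i => h _)

private theorem thr_set {i₀ : V k} (h : I.card = 2 ^ k)
    (hf : Module.finrank (ZMod 2) (thrS I i₀) = k) (x : V k) : x ∈ I ↔ x + i₀ ∈ thrS I i₀ := by
  classical
  refine ⟨fun hx => thrS_mem hx i₀, fun hx => ?_⟩
  have h1 : ((I.image fun y => y + i₀ : Finset (V k)) : Set (V k)) = (thrS I i₀ : Set (V k)) := by
    refine Set.eq_of_subset_of_ncard_le ?_ ?_ (Set.toFinite _)
    · intro y hy
      rw [Finset.mem_coe, Finset.mem_image] at hy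
      obtain ⟨i, hi, rfl⟩ := hy
      exact thrS_mem hi i₀
    · rw [Set.ncard_coe_finset, Finset.card_image_of_injective _ (add_left_injective i₀), h]
      have h2 : (thrS I i₀ : Set (V k)).ncard = Nat.card (thrS I i₀) :=
        (Nat.card_coe_set_eq _).symm
      rw [h2, Module.natCard_eq_pow_finrank (K := ZMod 2), Nat.card_zmod, hf]
  have h3 : x + i₀ ∈ ((I.image fun y => y + i₀ : Finset (V k)) : Set (V k)) := by
    rw [h1]
    exact hx
  rw [Finset.mem_coe, Finset.mem_image] at h3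
  obtain ⟨i, hi, he⟩ := h3
  rw [← add_right_cancel he]
  exact hi

theorem thr (hI : I.Nonempty) (hJ : J.Nonempty) (hK : K.Nonempty)
    (h : ∀ i ∈ I, ∀ j ∈ J, ∀ l ∈ K, q (i + j + l) = c) :
    I.card * J.card * K.card ≤ 8 ^ k := by
  obtain ⟨i₀, hi⟩ := hI
  obtain ⟨j₀, hj⟩ := hJ
  obtain ⟨l₀, hl⟩ := hK
  obtain ⟨h1, h2, h3⟩ := thr_main hi hj hl h
  exact thr_pow (thr_card_le i₀) (thr_card_le j₀) (thr_card_le l₀) (thr_two h1) (thr_two h2)
    (thr_two h3)

theorem thr_eq (h : ∀ i ∈ I, ∀ j ∈ J, ∀ l ∈ K, q (i + j + l) = c)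
    (h8 : I.card * J.card * K.card = 8 ^ k) :
    c = 0 ∧ ∃ U : Submodule (ZMod 2) (V k), Lag 2 k U ∧ ∀ i ∈ I, ∀ j ∈ J, ∀ l ∈ K,
      i + j + l ∈ TU U ∧ (∀ x, x ∈ I ↔ x + i ∈ U) ∧ (∀ x, x ∈ J ↔ x + j ∈ U) ∧
        ∀ x, x ∈ K ↔ x + l ∈ U := by
  have h0 : 0 < I.card * J.card * K.card := by
    rw [h8]
    positivity
  have hK : K.Nonempty := Finset.card_pos.1 (Nat.pos_of_mul_pos_left h0)
  have hIJ : 0 < I.card * J.card := Nat.pos_of_mul_pos_right h0
  have hJ : J.Nonempty := Finset.card_pos.1 (Nat.pos_of_mul_pos_left hIJ)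
  have hI : I.Nonempty := Finset.card_pos.1 (Nat.pos_of_mul_pos_right hIJ)
  obtain ⟨i₀, hi⟩ := hI
  obtain ⟨j₀, hj⟩ := hJ
  obtain ⟨l₀, hl⟩ := hK
  obtain ⟨h1, h2, h3⟩ := thr_main hi hj hl h
  obtain ⟨fa, fb, fd, ca, cb, cd⟩ := thr_pow_eq (thr_card_le i₀) (thr_card_le j₀) (thr_card_le l₀)
    (thr_two h1) (thr_two h2) (thr_two h3) h8
  have e1 : thrS J j₀ = (thrB k).orthogonal (thrS I i₀) := thr_eqperp h1 fa fb
  have e2 : thrS K l₀ = (thrB k).orthogonal (thrS I i₀) := thr_eqperp h2 fa fd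
  have e3 : thrS K l₀ = (thrB k).orthogonal (thrS J j₀) := thr_eqperp h3 fb fd
  have e4 : thrS I i₀ = (thrB k).orthogonal (thrS J j₀) :=
    thr_eqperp (fun x hx y hy => by rw [w_comm]; exact h1 y hy x hx) fb fa
  have eK : thrS K l₀ = thrS I i₀ := e3.trans e4.symm
  have eJ : thrS J j₀ = thrS I i₀ := (e1.trans e2.symm).trans eK
  have hlag : Lag 2 k (thrS I i₀) := by
    refine ⟨?_, fun x hx y hy => ?_, fun h4 => absurd rfl h4⟩
    · rw [Module.natCard_eq_pow_finrank (K := ZMod 2), Nat.card_zmod, fa]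
    · exact h1 x hx y (by rw [eJ]; exact hy)
  have sI := thr_set ca fa
  have sJ := thr_set cb fb
  have sK := thr_set cd fd
  rw [eJ] at sJ
  rw [eK] at sK
  have gen : ∀ {T : Finset (V k)} {t₀ : V k}, (∀ x, x ∈ T ↔ x + t₀ ∈ thrS I i₀) →
      ∀ t ∈ T, ∀ x, x ∈ T ↔ x + t ∈ thrS I i₀ := by
    intro T t₀ hT t ht x
    have h5 : t + t₀ ∈ thrS I i₀ := (hT t).1 ht
    have h6 : x + t = (x + t₀) + (t + t₀) := by
      rw [show (x + t₀) + (t + t₀) = x + t + (t₀ + t₀) by abel, thr_two_add, add_zero]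
    have h7 : x + t₀ = (x + t) + (t + t₀) := by
      rw [show (x + t) + (t + t₀) = x + t₀ + (t + t) by abel, thr_two_add, add_zero]
    rw [hT x]
    constructor
    · intro h8
      rw [h6]
      exact Submodule.add_mem _ h8 h5
    · intro h8
      rw [h7]
      exact Submodule.add_mem _ h8 h5
  have htu : ∀ i ∈ I, ∀ j ∈ J, ∀ l ∈ K, i + j + l ∈ TU (thrS I i₀) := by
    intro i hi' j hj' l hl'
    refine tu_of_const fun u hu => ?_
    have h5 : i + u ∈ I := by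
      rw [gen sI i hi' (i + u), show i + u + i = u + (i + i) by abel, thr_two_add, add_zero]
      exact hu
    rw [show i + j + l + u = i + u + j + l by abel, h _ h5 j hj' l hl', h i hi' j hj' l hl']
  refine ⟨?_, thrS I i₀, hlag, fun i hi' j hj' l hl' => ⟨htu i hi' j hj' l hl', gen sI i hi',
    gen sJ j hj', gen sK l hl'⟩⟩
  rw [← h i₀ hi j₀ hj l₀ hl]
  exact tu_q hlag (htu i₀ hi j₀ hj l₀ hl)

end Pool.Agent.H3.SA
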