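import Pool.Agent.H3.SA.SMZ
import Pool.Agent.H3.SA.THR

set_option autoImplicit false

/-!
# [H3 SA DEC] The sum over the unlinked labellings

Let `𝒬` be the finite set of the triples `T : Fin 3 → Finset (V k)` with `card (T 0) * card (T 1) * card (T 2) = 8 ^ k` and `q (i + j + l) = 0` for `i ∈ T 0`, `j ∈ T 1`, `l ∈ T 2` (a subset of all triples, whose number is `(2 ^ (4 ^ k)) ^ 3 = 8 ^ (4 ^ k)`: `card (V k) = 4 ^ k`).
For `T ∈ 𝒬` let `Z_T = {z ∈ WV | Sub Med T z}` and `E_T = {z ∈ WV | im z (Med i) = T i for all i} ⊆ Z_T`.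
* every `z ∈ Z_T` satisfies `UL Med 0 z`; a `z ∈ Z_T` which is not in `E_T` satisfies `Sml` (`im z (Med i) ⊆ T i`, some inclusion is strict, all `T i` are non-empty: the product of the cardinalities is smaller).
* a `z ∈ WV` with `UL Med 0 z` and not `Sml`: the triple `im z (Med i)` has product `8 ^ k` (`thr`), so it is in `𝒬`, and `z ∈ E_T` for exactly this `T`.
* So `∑_{UL 0} sg = ∑_{UL 0, Sml} sg + ∑_{T ∈ 𝒬} ∑_{E_T} sg` and `∑_{E_T} = ∑_{Z_T} - ∑_{Z_T, not E_T}`; `|∑_{UL 0} sg - ∑_{T ∈ 𝒬} ∑_{Z_T} sg| ≤ (1 + card 𝒬) * #{z ∈ WV | Sml z}` (`abs_sg`).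
* `∑_{T ∈ 𝒬} ∑_{Z_T} sg = Lk 2 k * card W ^ k`: for `T ∈ 𝒬` `thr_eq` gives `U` (take `t i ∈ T i`, which exist since the product `8 ^ k` is not `0`), `smz`: the sum is `card W ^ k` if all `T i` are `TU U` and `0` if not.
  The `T ∈ 𝒬` with value `card W ^ k` are in bijection to the Lagrangian subspaces `U'` by `U' ↦ (fun _ => FS (· ∈ TU U'))`: this triple is in `𝒬` (`tu_card`, `tu_three`, `tu_q`), the map is injective (`tu_inj`); for such a `T` the `U` of `thr_eq` satisfies `x ∈ T i ↔ x + t ∈ U`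
  and `x ∈ T i ↔ x ∈ TU U' ↔ x + t ∈ U'`, so `U = U'`.  `Lk 2 k = Nat.card {U // Lag 2 k U}`.
* `unl_one`: `UL Med 1 z` with all `Med i` non-empty implies `Sml`: `thr`, and equality is impossible (`thr_eq`: `c = 0`).
-/

namespace Pool.Agent.H3.SA

open Pool.Agent.H94.PN

variable {S : Type} [Finite S] {k : ℕ}

private theorem ful {Med : Fin 3 → Finset S} {c : ZMod 2} {z : S → V k} (h : UL Med c z) :
    ∀ i ∈ im z (Med 0), ∀ j ∈ im z (Med 1), ∀ l ∈ im z (Med 2), q (i + j + l) = c := by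
  intro i hi j hj l hl
  obtain ⟨p, hp, rfl⟩ := Finset.mem_image.1 hi
  obtain ⟨r, hr, rfl⟩ := Finset.mem_image.1 hj
  obtain ⟨t, ht, rfl⟩ := Finset.mem_image.1 hl
  exact h p hp r hr t ht

private theorem im_ne {Med : Fin 3 → Finset S} (hne : ∀ i, (Med i).Nonempty) (z : S → V k)
    (i : Fin 3) : (im z (Med i)).Nonempty := (hne i).image z

theorem unl_one {Med : Fin 3 → Finset S} (hne : ∀ i, (Med i).Nonempty) {z : S → V k}
    (h : UL Med 1 z) : Sml Med z := by
  have h1 := thr (im_ne hne z 0) (im_ne hne z 1) (im_ne hne z 2) (ful h)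
  rcases Nat.lt_or_ge ((im z (Med 0)).card * (im z (Med 1)).card * (im z (Med 2)).card)
    (8 ^ k) with h2 | h2
  · exact h2
  · have h3 := (thr_eq (ful h) (le_antisymm h1 h2)).1
    exact absurd h3 one_ne_zero

/-- the full triples -/
private def Ful (T : Fin 3 → Finset (V k)) : Prop :=
  (T 0).card * (T 1).card * (T 2).card = 8 ^ k ∧
    ∀ i ∈ T 0, ∀ j ∈ T 1, ∀ l ∈ T 2, q (i + j + l) = 0

private theorem ful_ne {T : Fin 3 → Finset (V k)} (h : Ful T) (i : Fin 3) : (T i).Nonempty := by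
  have h8 : 0 < 8 ^ k := by positivity
  rw [← h.1] at h8
  have h2 : 0 < (T 2).card := Nat.pos_of_mul_pos_left h8 |> fun _ => by
    rcases Nat.eq_zero_or_pos (T 2).card with h | h
    · rw [h, mul_zero] at h8
      exact absurd h8 (lt_irrefl 0)
    · exact h
  have h1 : 0 < (T 1).card := by
    rcases Nat.eq_zero_or_pos (T 1).card with h | h
    · rw [h, mul_zero, zero_mul] at h8
      exact absurd h8 (lt_irrefl 0)
    · exact h
  have h0 : 0 < (T 0).card := by
    rcases Nat.eq_zero_or_pos (T 0).card with h | h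
    · rw [h, zero_mul, zero_mul] at h8
      exact absurd h8 (lt_irrefl 0)
    · exact h
  fin_cases i
  · exact Finset.card_pos.1 h0
  · exact Finset.card_pos.1 h1
  · exact Finset.card_pos.1 h2

private theorem ful_sub {Med : Fin 3 → Finset S} {T : Fin 3 → Finset (V k)} (h : Ful T)
    {z : S → V k} (hz : Sub Med T z) : UL Med 0 z :=
  fun p hp r hr t ht => h.2 _ (hz 0 p hp) _ (hz 1 r hr) _ (hz 2 t ht)

private theorem ful_sml {Med : Fin 3 → Finset S} {T : Fin 3 → Finset (V k)} (h : Ful T)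
    {z : S → V k} (hz : Sub Med T z) (hne : (fun i => im z (Med i)) ≠ T) : Sml Med z := by
  have hsub : ∀ i, im z (Med i) ⊆ T i := by
    intro i x hx
    obtain ⟨p, hp, rfl⟩ := Finset.mem_image.1 hx
    exact hz i p hp
  have hle : ∀ i, (im z (Med i)).card ≤ (T i).card := fun i => Finset.card_le_card (hsub i)
  have hpos : ∀ i, 0 < (T i).card := fun i => Finset.card_pos.2 (ful_ne h i)
  by_contra hcon
  have hcon2 : 8 ^ k ≤ (im z (Med 0)).card * (im z (Med 1)).card * (im z (Med 2)).card :=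
    Nat.le_of_not_lt hcon
  rw [← h.1] at hcon2
  apply hne
  funext i
  refine Finset.eq_of_subset_of_card_le (hsub i) ?_
  by_contra hlt
  have hlt2 : (im z (Med i)).card < (T i).card := Nat.lt_of_not_le hlt
  refine absurd hcon2 (Nat.not_le_of_lt ?_)
  fin_cases i
  · calc (im z (Med 0)).card * (im z (Med 1)).card * (im z (Med 2)).card
        ≤ (im z (Med 0)).card * (T 1).card * (T 2).card :=
          Nat.mul_le_mul (Nat.mul_le_mul_left _ (hle 1)) (hle 2)
      _ < (T 0).card * (T 1).card * (T 2).card :=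
          Nat.mul_lt_mul_of_pos_right (Nat.mul_lt_mul_of_pos_right hlt2 (hpos 1)) (hpos 2)
  · calc (im z (Med 0)).card * (im z (Med 1)).card * (im z (Med 2)).card
        ≤ (T 0).card * (im z (Med 1)).card * (T 2).card :=
          Nat.mul_le_mul (Nat.mul_le_mul_right _ (hle 0)) (hle 2)
      _ < (T 0).card * (T 1).card * (T 2).card :=
          Nat.mul_lt_mul_of_pos_right (Nat.mul_lt_mul_of_pos_left hlt2 (hpos 0)) (hpos 2)
  · calc (im z (Med 0)).card * (im z (Med 1)).card * (im z (Med 2)).card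
        ≤ (T 0).card * (T 1).card * (im z (Med 2)).card :=
          Nat.mul_le_mul_right _ (Nat.mul_le_mul (hle 0) (hle 1))
      _ < (T 0).card * (T 1).card * (T 2).card :=
          Nat.mul_lt_mul_of_pos_left hlt2 (Nat.mul_pos (hpos 0) (hpos 1))

private theorem im_sub (Med : Fin 3 → Finset S) (z : S → V k) :
    Sub Med (fun i => im z (Med i)) z := fun _ _ hp => Finset.mem_image_of_mem z hp

private theorem ful_im {Med : Fin 3 → Finset S} (hne : ∀ i, (Med i).Nonempty) {z : S → V k}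
    (h : UL Med 0 z) (hs : ¬ Sml Med z) : Ful (fun i => im z (Med i)) := by
  refine ⟨le_antisymm (thr (im_ne hne z 0) (im_ne hne z 1) (im_ne hne z 2) (ful h)) ?_, ful h⟩
  exact Nat.le_of_not_lt hs

/-- the triples which are three times the coset -/
private def Dia (T : Fin 3 → Finset (V k)) : Prop :=
  ∃ U : Submodule (ZMod 2) (V k), Lag 2 k U ∧ ∀ i x, x ∈ T i ↔ x ∈ TU U

open Classical in
private theorem ful_sum (f : Frm S) {Med : Fin 3 → Finset S} (hne : ∀ i, (Med i).Nonempty)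
    (hN : NoTiny f Med) {T : Fin 3 → Finset (V k)} (h : Ful T) :
    ∑ z ∈ FS (fun z : S → V k => z ∈ WV f k ∧ Sub Med T z), sg (MV f z) =
      if Dia T then (Nat.card f.W : ℝ) ^ k else 0 := by
  obtain ⟨_, U, hU, hT⟩ := thr_eq h.2 h.1
  obtain ⟨a, ha⟩ := ful_ne h 0
  obtain ⟨b, hb⟩ := ful_ne h 1
  obtain ⟨c, hc⟩ := ful_ne h 2
  obtain ⟨h1, h2, h3, h4⟩ := hT a ha b hb c hc
  have hT2 : ∀ i x, x ∈ T i ↔ x + (![a, b, c] : Fin 3 → V k) i ∈ U := by
    intro i
    fin_cases i
    · exact h2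
    · exact h3
    · exact h4
  have h5 := smz f hne hN hU (T := T) (t := ![a, b, c]) hT2 h1
  rw [h5]
  have h6 : (∀ i x, x ∈ T i ↔ x ∈ TU U) ↔ Dia T := by
    constructor
    · intro h
      exact ⟨U, hU, h⟩
    · rintro ⟨U', hU', h'⟩
      have h7 : U = U' := by
        have h8 : a ∈ TU U' := (h' 0 a).1 ha
        ext x
        have e1 : x + a ∈ T 0 ↔ x ∈ U := by
          rw [h2 (x + a)]
          have : x + a + a = x := by
            rw [add_assoc]
            have h9 : a + a = 0 := by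
              have h3 : (2 : ZMod 2) = 0 := rfl
              rw [← two_smul (ZMod 2) a, h3, zero_smul]
            rw [h9, add_zero]
          rw [this]
        have e2 : x + a ∈ TU U' ↔ x ∈ U' := by
          rw [tu_iff hU' h8]
          have : x + a + a = x := by
            rw [add_assoc]
            have h9 : a + a = 0 := by
              have h3 : (2 : ZMod 2) = 0 := rfl
              rw [← two_smul (ZMod 2) a, h3, zero_smul]
            rw [h9, add_zero]
          rw [this]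
        rw [← e1, ← e2]
        exact h' 0 (x + a)
      rw [h7]
      exact h'
  by_cases hD : Dia T
  · rw [if_pos (h6.2 hD), if_pos hD]
  · rw [if_neg (fun h => hD (h6.1 h)), if_neg hD]

private theorem dia_ful {U : Submodule (ZMod 2) (V k)} (hU : Lag 2 k U) :
    Ful (fun _ : Fin 3 => FS (fun x : V k => x ∈ TU U)) := by
  refine ⟨?_, ?_⟩
  · show (FS (fun x : V k => x ∈ TU U)).card * (FS (fun x : V k => x ∈ TU U)).card *
      (FS (fun x : V k => x ∈ TU U)).card = 8 ^ k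
    rw [tu_card hU, ← mul_pow, ← mul_pow]
    norm_num
  · intro i hi j hj l hl
    exact tu_q hU (tu_three (mem_FS.1 hi) (mem_FS.1 hj) (mem_FS.1 hl))

private theorem dia_card (k : ℕ) :
    (FS (fun T : Fin 3 → Finset (V k) => Ful T ∧ Dia T)).card = Lk 2 k := by
  rw [card_FS]
  unfold Lk
  refine (Nat.card_congr (Equiv.ofBijective
    (fun U : {U : Submodule (ZMod 2) (V k) // Lag 2 k U} =>
      (⟨fun _ : Fin 3 => FS (fun x : V k => x ∈ TU U.1), dia_ful U.2, U.1, U.2,
        fun _ _ => mem_FS⟩ : {T : Fin 3 → Finset (V k) // Ful T ∧ Dia T})) ⟨?_, ?_⟩)).symm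
  · rintro ⟨U, hU⟩ ⟨U', hU'⟩ h
    have h1 := congrFun (congrArg Subtype.val h) 0
    refine Subtype.ext (tu_inj hU hU' fun x => ?_)
    have h2 : x ∈ FS (fun x : V k => x ∈ TU U) ↔ x ∈ FS (fun x : V k => x ∈ TU U') := by
      rw [show FS (fun x : V k => x ∈ TU U) = FS (fun x : V k => x ∈ TU U') from h1]
    rw [mem_FS, mem_FS] at h2
    exact h2
  · rintro ⟨T, hT, U, hU, h⟩
    refine ⟨⟨U, hU⟩, Subtype.ext ?_⟩
    funext i
    ext x
    rw [mem_FS, h i x]

theorem dec (f : Frm S) {Med : Fin 3 → Finset S} (hne : ∀ i, (Med i).Nonempty)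
    (hN : NoTiny f Med) (k : ℕ) :
    |∑ z ∈ FS (fun z : S → V k => z ∈ WV f k ∧ UL Med 0 z), sg (MV f z) -
      (Lk 2 k : ℝ) * (Nat.card f.W : ℝ) ^ k| ≤
      (1 + 8 ^ (4 ^ k)) * ((FS (fun z : S → V k => z ∈ WV f k ∧ Sml Med z)).card : ℝ) := by
  classical
  set N : ℝ := ((FS (fun z : S → V k => z ∈ WV f k ∧ Sml Med z)).card : ℝ) with hNdef
  set Q : Finset (Fin 3 → Finset (V k)) := FS (fun T => Ful T) with hQ
  set imT : (S → V k) → Fin 3 → Finset (V k) := fun z i => im z (Med i) with himT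
  -- the number of triples
  have hcard : (Q.card : ℝ) ≤ 8 ^ (4 ^ k) := by
    have h1 : Q.card ≤ 8 ^ (4 ^ k) := by
      refine (Finset.card_le_univ Q).trans ?_
      rw [Fintype.card_fun, Fintype.card_finset, Fintype.card_fin]
      have h2 : Fintype.card (V k) = 4 ^ k := by
        rw [Fintype.card_prod, Fintype.card_fun, ZMod.card, Fintype.card_fin, ← mul_pow]
        norm_num
      rw [h2, ← pow_mul, mul_comm, pow_mul]
      norm_num
    exact_mod_cast h1
  -- the main part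
  have hmain : ∑ T ∈ Q, ∑ z ∈ FS (fun z : S → V k => z ∈ WV f k ∧ Sub Med T z), sg (MV f z) =
      (Lk 2 k : ℝ) * (Nat.card f.W : ℝ) ^ k := by
    have h1 : ∀ T ∈ Q, ∑ z ∈ FS (fun z : S → V k => z ∈ WV f k ∧ Sub Med T z), sg (MV f z) =
        if Dia T then (Nat.card f.W : ℝ) ^ k else 0 := fun T hT =>
      ful_sum f hne hN (mem_FS.1 hT)
    rw [Finset.sum_congr rfl h1, ← Finset.sum_filter, Finset.sum_const, nsmul_eq_mul]
    have h2 : Q.filter (fun T => Dia T) = FS (fun T : Fin 3 → Finset (V k) => Ful T ∧ Dia T) := by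
      ext T
      rw [Finset.mem_filter, hQ, mem_FS, mem_FS]
    rw [h2, dia_card]
  -- the three parts
  have hsplit : ∑ z ∈ FS (fun z : S → V k => z ∈ WV f k ∧ UL Med 0 z), sg (MV f z) =
      ∑ z ∈ FS (fun z : S → V k => z ∈ WV f k ∧ UL Med 0 z ∧ Sml Med z), sg (MV f z) +
      ∑ T ∈ Q, ∑ z ∈ FS (fun z : S → V k => z ∈ WV f k ∧ Sub Med T z ∧ imT z = T),
        sg (MV f z) := by
    rw [← Finset.sum_filter_add_sum_filter_not _ (fun z => Sml Med z)]
    congr 1
    · refine Finset.sum_congr ?_ fun _ _ => rfl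
      ext z
      rw [Finset.mem_filter, mem_FS, mem_FS, and_assoc]
    · rw [← Finset.sum_fiberwise_of_maps_to (t := Q) (g := imT)]
      · refine Finset.sum_congr rfl fun T hT => ?_
        refine Finset.sum_congr ?_ fun _ _ => rfl
        have hT' : Ful T := mem_FS.1 hT
        ext z
        rw [Finset.mem_filter, Finset.mem_filter, mem_FS, mem_FS]
        constructor
        · rintro ⟨⟨⟨h1, h2⟩, h3⟩, h4⟩
          refine ⟨h1, ?_, h4⟩
          rw [← h4]
          exact im_sub Med z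
        · rintro ⟨h1, h2, h3⟩
          refine ⟨⟨⟨h1, ful_sub hT' h2⟩, ?_⟩, h3⟩
          intro h4
          unfold Sml at h4
          rw [← h3] at hT'
          have h5 := hT'.1
          exact absurd h4 (by
            rw [← h5]
            exact lt_irrefl _)
      · intro z hz
        rw [Finset.mem_filter, mem_FS] at hz
        rw [hQ, mem_FS]
        exact ful_im hne hz.1.2 hz.2
  have hsplit2 : ∀ T ∈ Q, ∑ z ∈ FS (fun z : S → V k => z ∈ WV f k ∧ Sub Med T z),
      sg (MV f z) =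
      ∑ z ∈ FS (fun z : S → V k => z ∈ WV f k ∧ Sub Med T z ∧ imT z = T), sg (MV f z) +
      ∑ z ∈ FS (fun z : S → V k => z ∈ WV f k ∧ Sub Med T z ∧ imT z ≠ T), sg (MV f z) := by
    intro T hT
    rw [← Finset.sum_filter_add_sum_filter_not _ (fun z => imT z = T)]
    congr 1
    · refine Finset.sum_congr ?_ fun _ _ => rfl
      ext z
      rw [Finset.mem_filter, mem_FS, mem_FS, and_assoc]
    · refine Finset.sum_congr ?_ fun _ _ => rfl
      ext z
      rw [Finset.mem_filter, mem_FS, mem_FS, and_assoc]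
  have hb : ∀ P : (S → V k) → Prop, (∀ z, z ∈ WV f k ∧ P z → Sml Med z) →
      |∑ z ∈ FS (fun z : S → V k => z ∈ WV f k ∧ P z), sg (MV f z)| ≤ N := by
    intro P hP
    refine (Finset.abs_sum_le_sum_abs _ _).trans ?_
    rw [Finset.sum_congr rfl fun z _ => abs_sg (MV f z), Finset.sum_const, nsmul_eq_mul, mul_one,
      hNdef]
    have h1 : (FS (fun z : S → V k => z ∈ WV f k ∧ P z)).card ≤
        (FS (fun z : S → V k => z ∈ WV f k ∧ Sml Med z)).card := by
      refine Finset.card_le_card fun z hz => ?_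
      rw [mem_FS] at hz ⊢
      exact ⟨hz.1, hP z hz⟩
    exact_mod_cast h1
  have e1 : ∑ z ∈ FS (fun z : S → V k => z ∈ WV f k ∧ UL Med 0 z), sg (MV f z) -
      (Lk 2 k : ℝ) * (Nat.card f.W : ℝ) ^ k =
      ∑ z ∈ FS (fun z : S → V k => z ∈ WV f k ∧ UL Med 0 z ∧ Sml Med z), sg (MV f z) -
      ∑ T ∈ Q, ∑ z ∈ FS (fun z : S → V k => z ∈ WV f k ∧ Sub Med T z ∧ imT z ≠ T),
        sg (MV f z) := by
    rw [← hmain, hsplit, Finset.sum_congr rfl hsplit2, Finset.sum_add_distrib]
    ring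
  rw [e1]
  have hN0 : 0 ≤ N := Nat.cast_nonneg _
  have e2 : |∑ T ∈ Q, ∑ z ∈ FS (fun z : S → V k => z ∈ WV f k ∧ Sub Med T z ∧ imT z ≠ T),
      sg (MV f z)| ≤ 8 ^ (4 ^ k) * N := by
    refine (Finset.abs_sum_le_sum_abs _ _).trans ?_
    calc ∑ T ∈ Q, |∑ z ∈ FS (fun z : S → V k => z ∈ WV f k ∧ Sub Med T z ∧ imT z ≠ T),
          sg (MV f z)| ≤ ∑ _T ∈ Q, N :=
          Finset.sum_le_sum fun T hT => hb _ fun z hz => ful_sml (mem_FS.1 hT) hz.2.1 hz.2.2
      _ = Q.card * N := by rw [Finset.sum_const, nsmul_eq_mul]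
      _ ≤ 8 ^ (4 ^ k) * N := mul_le_mul_of_nonneg_right hcard hN0
  have e3 := hb (fun z => UL Med 0 z ∧ Sml Med z) fun z hz => hz.2.2
  calc |∑ z ∈ FS (fun z : S → V k => z ∈ WV f k ∧ UL Med 0 z ∧ Sml Med z), sg (MV f z) -
      ∑ T ∈ Q, ∑ z ∈ FS (fun z : S → V k => z ∈ WV f k ∧ Sub Med T z ∧ imT z ≠ T),
        sg (MV f z)| ≤ N + 8 ^ (4 ^ k) * N := (abs_sub _ _).trans (add_le_add e3 e2)
    _ = (1 + 8 ^ (4 ^ k)) * N := by ring

end Pool.Agent.H3.SA
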