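import Pool.Agent.H94.PN.LKR

set_option autoImplicit false

/-!
# [H3 SA Defs] Symmetric forms over the field with two elements with a characteristic vector

Labels `V k = (ZMod 2)^k × (ZMod 2)^k` with the quadratic form `q (x, y) = x · y` and its polar form
`w`; the Lagrangian subspaces are the `Lag 2 k` of `H94.PN` (maximal isotropic for `w`, `q` is linear
on them).  `Frm S`: a bilinear form `M` on `S → ZMod 2`, which is symmetric on a subspace `W` and has
the characteristic vector `1 ∈ W`: `M x x = M x 1` on `W`.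
`WV f k`: the maps `z : S → V k` (labels of the elements of `S`) all coordinates of which are in `W`;
`MV f z = ∑ i, M (z.1 i) (z.2 i)`.
-/

namespace Pool.Agent.H3.SA

open Pool.Agent.H94.PN

/-- the labels -/
abbrev V (k : ℕ) : Type := H0 2 k

/-- the quadratic form on the labels -/
def q {k : ℕ} (v : V k) : ZMod 2 := dotp v.2 v.1

/-- its polar form -/
def w {k : ℕ} (u v : V k) : ZMod 2 := dotp u.2 v.1 + dotp v.2 u.1

/-- the sign -/
noncomputable def sg (a : ZMod 2) : ℝ := if a = 0 then 1 else -1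

/-- a form on `S → ZMod 2`, symmetric on `W` and with the characteristic vector `1` -/
structure Frm (S : Type) where
  W : Submodule (ZMod 2) (S → ZMod 2)
  M : (S → ZMod 2) →ₗ[ZMod 2] (S → ZMod 2) →ₗ[ZMod 2] ZMod 2
  one : (1 : S → ZMod 2) ∈ W
  sym : ∀ x ∈ W, ∀ y ∈ W, M x y = M y x
  chr : ∀ x ∈ W, M x x = M x 1

variable {S : Type} {k : ℕ}

/-- the radical of the form on `W` -/
def rad (f : Frm S) : Submodule (ZMod 2) (S → ZMod 2) where
  carrier := {x | x ∈ f.W ∧ ∀ y ∈ f.W, f.M x y = 0}
  zero_mem' := ⟨f.W.zero_mem, fun y _ => by rw [map_zero, LinearMap.zero_apply]⟩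
  add_mem' := fun {x x'} h h' => ⟨f.W.add_mem h.1 h'.1, fun y hy => by
    rw [map_add, LinearMap.add_apply, h.2 y hy, h'.2 y hy, add_zero]⟩
  smul_mem' := fun c x h => ⟨f.W.smul_mem c h.1, fun y hy => by
    rw [map_smul, LinearMap.smul_apply, h.2 y hy, smul_zero]⟩

theorem mem_rad {f : Frm S} {x : S → ZMod 2} :
    x ∈ rad f ↔ x ∈ f.W ∧ ∀ y ∈ f.W, f.M x y = 0 := Iff.rfl

/-- the labellings with all coordinates in `W` -/
def WV (f : Frm S) (k : ℕ) : Submodule (ZMod 2) (S → V k) where
  carrier := {z | ∀ i : Fin k, (fun p => (z p).1 i) ∈ f.W ∧ (fun p => (z p).2 i) ∈ f.W}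
  zero_mem' := fun _ => ⟨f.W.zero_mem, f.W.zero_mem⟩
  add_mem' := fun {_ _} h h' i => ⟨f.W.add_mem (h i).1 (h' i).1, f.W.add_mem (h i).2 (h' i).2⟩
  smul_mem' := fun c _ h i => ⟨f.W.smul_mem c (h i).1, f.W.smul_mem c (h i).2⟩

theorem mem_WV {f : Frm S} {z : S → V k} :
    z ∈ WV f k ↔ ∀ i : Fin k, (fun p => (z p).1 i) ∈ f.W ∧ (fun p => (z p).2 i) ∈ f.W := Iff.rfl

/-- the value of the form on a labelling -/
def MV (f : Frm S) (z : S → V k) : ZMod 2 :=
  ∑ i : Fin k, f.M (fun p => (z p).1 i) (fun p => (z p).2 i)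

/-- the contraction of a labelling by a label -/
def ctr (u : V k) (z : S → V k) : S → ZMod 2 := fun p => w u (z p)

/-- `τ u z = w (u, z) + q (u) 1` -/
def tau (u : V k) (z : S → V k) : S → ZMod 2 := fun p => w u (z p) + q u

/-! ### first rules -/

theorem dotp_comm (a b : Fin k → ZMod 2) : dotp a b = dotp b a := by
  unfold dotp
  exact Finset.sum_congr rfl fun i _ => mul_comm _ _

theorem dotp_add_left (a b c : Fin k → ZMod 2) : dotp (a + b) c = dotp a c + dotp b c := by
  unfold dotp
  rw [← Finset.sum_add_distrib]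
  exact Finset.sum_congr rfl fun i _ => add_mul _ _ _

theorem dotp_add_right (a b c : Fin k → ZMod 2) : dotp a (b + c) = dotp a b + dotp a c := by
  rw [dotp_comm, dotp_add_left, dotp_comm b, dotp_comm c]

theorem dotp_zero_left (a : Fin k → ZMod 2) : dotp 0 a = 0 := by
  unfold dotp
  exact Finset.sum_eq_zero fun i _ => zero_mul _

theorem dotp_zero_right (a : Fin k → ZMod 2) : dotp a 0 = 0 := by
  rw [dotp_comm, dotp_zero_left]

theorem q_zero : q (0 : V k) = 0 := dotp_zero_left _

theorem w_zero_left (v : V k) : w 0 v = 0 := by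
  unfold w
  rw [Prod.snd_zero, Prod.fst_zero, dotp_zero_left, dotp_zero_right, add_zero]

theorem w_comm (u v : V k) : w u v = w v u := by
  unfold w
  rw [add_comm]

theorem w_zero_right (v : V k) : w v 0 = 0 := by rw [w_comm, w_zero_left]

theorem w_add_left (u u' v : V k) : w (u + u') v = w u v + w u' v := by
  unfold w
  rw [Prod.snd_add, Prod.fst_add, dotp_add_left, dotp_add_right]
  ring

theorem w_add_right (u v v' : V k) : w u (v + v') = w u v + w u v' := by
  rw [w_comm, w_add_left, w_comm v, w_comm v']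

theorem w_self (u : V k) : w u u = 0 := by
  unfold w
  exact CharTwo.add_self_eq_zero _

theorem q_add (u v : V k) : q (u + v) = q u + q v + w u v := by
  unfold q w
  rw [Prod.snd_add, Prod.fst_add, dotp_add_left, dotp_add_right, dotp_add_right]
  ring

/-- the polar form is not degenerate -/
theorem w_nondeg {u : V k} (h : ∀ v, w u v = 0) : u = 0 := by
  refine Prod.ext (funext fun i => ?_) (funext fun i => ?_)
  · have h1 := h (0, Pi.single i 1)
    unfold w at h1
    rw [dotp_zero_right, zero_add] at h1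
    unfold dotp at h1
    rw [Finset.sum_eq_single i (fun j _ hj => by
      show (Pi.single i 1 : Fin k → ZMod 2) j * _ = 0
      rw [Pi.single_eq_of_ne hj, zero_mul])
      (fun h => absurd (Finset.mem_univ i) h)] at h1
    rw [show ((0, Pi.single i 1) : V k).2 i = 1 from Pi.single_eq_same i 1, one_mul] at h1
    exact h1
  · have h1 := h (Pi.single i 1, 0)
    unfold w at h1
    rw [show ((Pi.single i 1, 0) : V k).2 = 0 from rfl, dotp_zero_left, add_zero] at h1
    unfold dotp at h1
    rw [Finset.sum_eq_single i (fun j _ hj => by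
      show _ * (Pi.single i 1 : Fin k → ZMod 2) j = 0
      rw [Pi.single_eq_of_ne hj, mul_zero])
      (fun h => absurd (Finset.mem_univ i) h)] at h1
    rw [show ((Pi.single i 1, 0) : V k).1 i = 1 from Pi.single_eq_same i 1, mul_one] at h1
    exact h1

theorem z2 (a : ZMod 2) : a = 0 ∨ a = 1 := by
  fin_cases a
  · exact Or.inl rfl
  · exact Or.inr rfl

theorem sg_zero : sg 0 = 1 := if_pos rfl

theorem sg_one : sg 1 = -1 := if_neg (by decide)

theorem sg_add (a b : ZMod 2) : sg (a + b) = sg a * sg b := by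
  rcases z2 a with rfl | rfl
  · rw [zero_add, sg_zero, one_mul]
  · rcases z2 b with rfl | rfl
    · rw [add_zero, sg_zero, mul_one]
    · rw [show (1 : ZMod 2) + 1 = 0 from rfl, sg_zero, sg_one]
      norm_num

theorem sg_sum {ι : Type} (s : Finset ι) (a : ι → ZMod 2) :
    sg (∑ i ∈ s, a i) = ∏ i ∈ s, sg (a i) := by
  classical
  induction s using Finset.induction_on with
  | empty => rw [Finset.sum_empty, Finset.prod_empty, sg_zero]
  | insert i s hi ih => rw [Finset.sum_insert hi, Finset.prod_insert hi, sg_add, ih]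

theorem abs_sg (a : ZMod 2) : |sg a| = 1 := by
  rcases z2 a with rfl | rfl
  · rw [sg_zero, abs_one]
  · rw [sg_one, abs_neg, abs_one]

/-! ### finite sets -/

/-- the finite set of the elements with a property -/
noncomputable def FS {α : Type} [Finite α] (P : α → Prop) : Finset α :=
  (Set.toFinite {a | P a}).toFinset

theorem mem_FS {α : Type} [Finite α] {P : α → Prop} {a : α} : a ∈ FS P ↔ P a := by
  unfold FS
  rw [Set.Finite.mem_toFinset]
  exact Iff.rfl

theorem card_FS {α : Type} [Finite α] (P : α → Prop) : (FS P).card = Nat.card {a // P a} := by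
  unfold FS
  rw [← Set.ncard_eq_toFinset_card]
  exact (Nat.card_coe_set_eq _).symm

/-- the labels of the elements of `T` -/
def im {S : Type} {k : ℕ} (z : S → V k) (T : Finset S) : Finset (V k) := T.image z

/-- `q = c` on all sums of three labels of elements of the three groups -/
def UL {S : Type} {k : ℕ} (Med : Fin 3 → Finset S) (c : ZMod 2) (z : S → V k) : Prop :=
  ∀ p ∈ Med 0, ∀ r ∈ Med 1, ∀ t ∈ Med 2, q (z p + z r + z t) = c

/-- few labels are used -/
def Sml {S : Type} {k : ℕ} (Med : Fin 3 → Finset S) (z : S → V k) : Prop :=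
  (im z (Med 0)).card * (im z (Med 1)).card * (im z (Med 2)).card < 8 ^ k

/-- the labels of the elements of the three groups are in the three sets -/
def Sub {S : Type} {k : ℕ} (Med : Fin 3 → Finset S) (T : Fin 3 → Finset (V k)) (z : S → V k) :
    Prop :=
  ∀ i, ∀ p ∈ Med i, z p ∈ T i

/-- no element of the radical but `0` is constant on each group with constants of sum `0` -/
def NoTiny {S : Type} (f : Frm S) (Med : Fin 3 → Finset S) : Prop :=
  ∀ x ∈ rad f, ∀ a : Fin 3 → ZMod 2, (∀ i, ∀ p ∈ Med i, x p = a i) → a 0 + a 1 + a 2 = 0 → x = 0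

/-- `v ⊗ c` -/
def tn {S : Type} {k : ℕ} (c : S → ZMod 2) (v : V k) : S → V k := fun p => c p • v

/-! ### Lagrangian subspaces -/

/-- the labels `v` with `w (u, v) = q (u)` for all `u ∈ U` -/
def TU (U : Submodule (ZMod 2) (V k)) : Set (V k) := {v | ∀ u ∈ U, w u v = q u}

theorem lag_w {U : Submodule (ZMod 2) (V k)} (hU : Lag 2 k U) {u v : V k} (hu : u ∈ U)
    (hv : v ∈ U) : w u v = 0 := hU.2.1 u hu v hv

theorem lag_card {U : Submodule (ZMod 2) (V k)} (hU : Lag 2 k U) : Nat.card U = 2 ^ k := hU.1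

theorem lag_q_add {U : Submodule (ZMod 2) (V k)} (hU : Lag 2 k U) {u v : V k} (hu : u ∈ U)
    (hv : v ∈ U) : q (u + v) = q u + q v := by
  rw [q_add, lag_w hU hu hv, add_zero]

end Pool.Agent.H3.SA
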