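import Pool.Agent.H3.SA.Defs

set_option autoImplicit false

/-!
# [H3 SA MOM] The moments of the radical

* `mom`: The labellings in `WV f k` are the families `(x i, y i)`, `i : Fin k`, of pairs of elements of `W` (`x i = fun p => (z p).1 i`, `y i = fun p => (z p).2 i`), and `sg (MV f z) = ∏ i, sg (M (x i) (y i))` (`sg_sum`).  So the sum is the `k`-th power of
  `∑ x ∈ W, ∑ y ∈ W, sg (M x y)` (`Finset.prod_univ_sum`, `Fintype.piFinset`, or `Finset.sum_pow'`, or by induction on `k`; the equivalence of `WV f k` and `Fin k → W × W`).  For `x ∈ W`: `∑ y ∈ W, sg (M x y)` is `card W` if `x ∈ rad` and `0` if not (there is `y₀ ∈ W` with `M x y₀ = 1`;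
  the sum is invariant under `y ↦ y + y₀`, which changes the sign).
-/

namespace Pool.Agent.H3.SA

open Pool.Agent.H94.PN

variable {S : Type} [Finite S]

open Classical in
/-- the sum of a sign over a subspace -/
theorem sum_sg (f : Frm S) {x : S → ZMod 2} (hx : x ∈ f.W) :
    ∑ y ∈ FS (fun y : S → ZMod 2 => y ∈ f.W), sg (f.M x y) =
      if x ∈ rad f then (Nat.card f.W : ℝ) else 0 := by
  split_ifs with h
  · rw [Finset.sum_congr rfl fun y hy => by
      rw [(mem_rad.1 h).2 y (mem_FS.1 hy), sg_zero]]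
    rw [Finset.sum_const, card_FS, nsmul_eq_mul, mul_one]
  · have h1 : ∃ y₀ ∈ f.W, f.M x y₀ ≠ 0 := by
      by_contra hc
      push Not at hc
      exact h (mem_rad.2 ⟨hx, hc⟩)
    obtain ⟨y₀, hy₀, hne⟩ := h1
    have h2 : f.M x y₀ = 1 := (z2 _).resolve_left hne
    have h3 : ∑ y ∈ FS (fun y : S → ZMod 2 => y ∈ f.W), sg (f.M x y) =
        ∑ y ∈ FS (fun y : S → ZMod 2 => y ∈ f.W), sg (f.M x (y + y₀)) := by
      refine (Finset.sum_equiv (Equiv.addRight y₀) ?_ ?_).symm
      · intro y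
        rw [mem_FS, mem_FS, Equiv.coe_addRight]
        exact ⟨fun hy => f.W.add_mem hy hy₀, fun hy => (f.W.add_mem_iff_left hy₀).1 hy⟩
      · intro y _
        rfl
    have h4 : ∑ y ∈ FS (fun y : S → ZMod 2 => y ∈ f.W), sg (f.M x (y + y₀)) =
        -∑ y ∈ FS (fun y : S → ZMod 2 => y ∈ f.W), sg (f.M x y) := by
      rw [← Finset.sum_neg_distrib]
      refine Finset.sum_congr rfl fun y _ => ?_
      rw [map_add, sg_add, h2, sg_one, mul_neg_one]
    rw [h4] at h3
    linarith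

theorem mom (f : Frm S) (k : ℕ) :
    ∑ z ∈ FS (fun z : S → V k => z ∈ WV f k), sg (MV f z) =
      (Nat.card (rad f) : ℝ) ^ k * (Nat.card f.W : ℝ) ^ k := by
  classical
  have h1 : ∑ c ∈ FS (fun y : S → ZMod 2 => y ∈ f.W) ×ˢ FS (fun y : S → ZMod 2 => y ∈ f.W),
      sg (f.M c.1 c.2) = (Nat.card (rad f) : ℝ) * (Nat.card f.W : ℝ) := by
    rw [Finset.sum_product]
    rw [Finset.sum_congr rfl fun x hx => sum_sg f (mem_FS.1 hx), ← Finset.sum_filter,
      Finset.sum_const, nsmul_eq_mul]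
    congr 2
    have h2 : (FS (fun y : S → ZMod 2 => y ∈ f.W)).filter (fun x => x ∈ rad f) =
        FS (fun x : S → ZMod 2 => x ∈ rad f) := by
      ext x
      rw [Finset.mem_filter, mem_FS, mem_FS]
      exact ⟨fun h => h.2, fun h => ⟨(mem_rad.1 h).1, h⟩⟩
    rw [h2, card_FS]
  rw [← mul_pow, ← h1]
  have h3 : (∑ c ∈ FS (fun y : S → ZMod 2 => y ∈ f.W) ×ˢ FS (fun y : S → ZMod 2 => y ∈ f.W),
      sg (f.M c.1 c.2)) ^ k = ∏ _i : Fin k,
      ∑ c ∈ FS (fun y : S → ZMod 2 => y ∈ f.W) ×ˢ FS (fun y : S → ZMod 2 => y ∈ f.W),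
        sg (f.M c.1 c.2) := by
    rw [Finset.prod_const, Finset.card_univ, Fintype.card_fin]
  rw [h3, Finset.prod_univ_sum]
  refine Finset.sum_nbij' (fun z i => (fun p => (z p).1 i, fun p => (z p).2 i))
    (fun c p => (fun i => (c i).1 p, fun i => (c i).2 p)) ?_ ?_ ?_ ?_ ?_
  · intro z hz
    rw [Fintype.mem_piFinset]
    intro i
    rw [Finset.mem_product, mem_FS, mem_FS]
    exact mem_WV.1 (mem_FS.1 hz) i
  · intro c hc
    rw [mem_FS, mem_WV]
    intro i
    have h4 := Fintype.mem_piFinset.1 hc i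
    rw [Finset.mem_product, mem_FS, mem_FS] at h4
    exact h4
  · intro z _
    rfl
  · intro c _
    rfl
  · intro z _
    unfold MV
    rw [sg_sum]

end Pool.Agent.H3.SA
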