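import Pool.Agent.H3.SA.Defs

set_option autoImplicit false

/-!
# [H3 SA SHF] The change of the form under a shift

* `shf`: expand `M ((z.1 i) + u.1 i • c) ((z.2 i) + u.2 i • c)`: the new terms are `u.2 i M (z.1 i) c + u.1 i M c (z.2 i) + u.1 i u.2 i M c c`; `M c (z.2 i) = M (z.2 i) c` (`f.sym`), so their sum over `i` is `M (∑ i, (u.2 i z.1 i + u.1 i z.2 i)) c + q u * M c c`
  `= M (ctr u z) c + q u * M 1 c` (`f.chr`, `f.sym`) `= M (tau u z) c` (`tau u z = ctr u z + q u • 1`).
* `ctr_mem`: `ctr u z = ∑ i, (u.2 i • z.1 i + u.1 i • z.2 i)`.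
-/

namespace Pool.Agent.H3.SA

open Pool.Agent.H94.PN

variable {S : Type} {f : Frm S} {k : ℕ}

theorem tn_mem {c : S → ZMod 2} (hc : c ∈ f.W) (v : V k) : tn c v ∈ WV f k := by
  intro i
  constructor
  · have h : (fun p => (tn c v p).1 i) = v.1 i • c := by
      funext p
      show c p * v.1 i = v.1 i * c p
      exact mul_comm _ _
    rw [h]
    exact f.W.smul_mem _ hc
  · have h : (fun p => (tn c v p).2 i) = v.2 i • c := by
      funext p
      show c p * v.2 i = v.2 i * c p
      exact mul_comm _ _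
    rw [h]
    exact f.W.smul_mem _ hc

private theorem ctr_eq (u : V k) (z : S → V k) :
    ctr u z = ∑ i, (u.2 i • (fun p => (z p).1 i) + u.1 i • (fun p => (z p).2 i)) := by
  funext p
  rw [Finset.sum_apply]
  show dotp u.2 (z p).1 + dotp (z p).2 u.1 = ∑ i, (u.2 i * (z p).1 i + u.1 i * (z p).2 i)
  rw [Finset.sum_add_distrib]
  unfold dotp
  congr 1
  exact Finset.sum_congr rfl fun i _ => mul_comm _ _

private theorem tau_eq' (u : V k) (z : S → V k) :
    tau u z = ctr u z + q u • (1 : S → ZMod 2) := by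
  funext p
  show w u (z p) + q u = w u (z p) + q u * 1
  rw [mul_one]

theorem ctr_mem {z : S → V k} (hz : z ∈ WV f k) (u : V k) : ctr u z ∈ f.W := by
  rw [ctr_eq]
  exact f.W.sum_mem fun i _ =>
    f.W.add_mem (f.W.smul_mem _ (hz i).1) (f.W.smul_mem _ (hz i).2)

theorem tau_mem {z : S → V k} (hz : z ∈ WV f k) (u : V k) : tau u z ∈ f.W := by
  rw [tau_eq']
  exact f.W.add_mem (ctr_mem hz u) (f.W.smul_mem _ f.one)

theorem tau_eq (u : V k) (z : S → V k) : tau u z = ctr u z + q u • (1 : S → ZMod 2) := by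
  exact tau_eq' u z

theorem ctr_add (u : V k) (z z' : S → V k) : ctr u (z + z') = ctr u z + ctr u z' := by
  funext p
  exact w_add_right u (z p) (z' p)

theorem ctr_tn (u v : V k) (c : S → ZMod 2) : ctr u (tn c v) = w u v • c := by
  funext p
  show w u (c p • v) = w u v * c p
  rcases z2 (c p) with h | h
  · rw [h, zero_smul, w_zero_right, mul_zero]
  · rw [h, one_smul, mul_one]

theorem tau_shf (v u : V k) (c : S → ZMod 2) (z : S → V k) :
    tau v (z + tn c u) = tau v z + w v u • c := by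
  rw [tau_eq, ctr_add, ctr_tn, tau_eq]
  abel

theorem shf {z : S → V k} (hz : z ∈ WV f k) {c : S → ZMod 2} (hc : c ∈ f.W) (u : V k) :
    MV f (z + tn c u) = MV f z + f.M (tau u z) c := by
  have h1 : ∀ i : Fin k, f.M (fun p => ((z + tn c u) p).1 i) (fun p => ((z + tn c u) p).2 i) =
      f.M (fun p => (z p).1 i) (fun p => (z p).2 i)
      + f.M (u.2 i • (fun p => (z p).1 i) + u.1 i • (fun p => (z p).2 i)) c
      + u.2 i * u.1 i * f.M 1 c := by
    intro i
    have ha : (fun p => ((z + tn c u) p).1 i) = (fun p => (z p).1 i) + u.1 i • c := by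
      funext p
      show (z p).1 i + c p * u.1 i = (z p).1 i + u.1 i * c p
      rw [mul_comm (c p)]
    have hb : (fun p => ((z + tn c u) p).2 i) = (fun p => (z p).2 i) + u.2 i • c := by
      funext p
      show (z p).2 i + c p * u.2 i = (z p).2 i + u.2 i * c p
      rw [mul_comm (c p)]
    have hc1 : f.M c c = f.M 1 c := by rw [f.chr c hc, f.sym c hc 1 f.one]
    have hs : f.M c (fun p => (z p).2 i) = f.M (fun p => (z p).2 i) c := f.sym c hc _ (hz i).2
    rw [ha, hb]
    simp only [map_add, LinearMap.add_apply, map_smul, LinearMap.smul_apply, smul_eq_mul]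
    rw [hc1, hs]
    ring
  unfold MV
  rw [Finset.sum_congr rfl fun i _ => h1 i, Finset.sum_add_distrib, Finset.sum_add_distrib,
    add_assoc]
  congr 1
  rw [tau_eq, ctr_eq, map_add, LinearMap.add_apply, map_sum, LinearMap.sum_apply, map_smul,
    LinearMap.smul_apply, smul_eq_mul]
  congr 1
  unfold q dotp
  rw [Finset.sum_mul]

end Pool.Agent.H3.SA
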