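import Pool.Agent.H3.SA.MOM
import Pool.Agent.H3.SA.SHF

set_option autoImplicit false

/-!
# [H3 SA ORB] Sums over sets which are invariant under the shifts by `U ⊗ W`

* `orb1`: one `u`: `P` is invariant under `z ↦ z + tn c u`, `c ∈ W` (a bijection of the set, an involution: `tn c u + tn c u = 0`).  So for every `c ∈ W`: `∑_{z} sg (MV f z) = ∑_{z} sg (MV f (z + tn c u)) = ∑_z sg (MV f z) * sg (M (tau u z) c)` (`shf`, `sg_add`).
  Sum over `c ∈ W`, interchange, `sum_sg` with `x = tau u z` (`tau_mem`): `card W * ∑_z sg (MV f z) = card W * ∑_{z, tau u z ∈ rad} sg (MV f z)`, `card W ≠ 0`.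
* `orb`: `U` is finite.  By induction on a finite set `A ⊆ U`: the sum over `P` is the sum over `P ∧ ∀ u ∈ A, tau u z ∈ rad f`; this condition is again invariant (`tau_shf`, `lag_w`: `w u u' = 0` on `U`), apply `orb1`.
-/

namespace Pool.Agent.H3.SA

open Pool.Agent.H94.PN

variable {S : Type} [Finite S] {k : ℕ}

private theorem tn_self (c : S → ZMod 2) (u : V k) : tn c u + tn c u = 0 := by
  funext p
  show c p • u + c p • u = 0
  have h2 : ∀ v : V k, v + v = 0 := by
    intro v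
    have h3 : (2 : ZMod 2) = 0 := rfl
    rw [← two_smul (ZMod 2) v, h3, zero_smul]
  exact h2 _

theorem orb1 (f : Frm S) (u : V k) (P : (S → V k) → Prop)
    (hP : ∀ z, ∀ c ∈ f.W, P z → P (z + tn c u)) :
    ∑ z ∈ FS (fun z : S → V k => z ∈ WV f k ∧ P z), sg (MV f z) =
      ∑ z ∈ FS (fun z : S → V k => z ∈ WV f k ∧ P z ∧ tau u z ∈ rad f), sg (MV f z) := by
  classical
  set Z : Finset (S → V k) := FS (fun z : S → V k => z ∈ WV f k ∧ P z) with hZ
  have h1 : ∀ c ∈ FS (fun c : S → ZMod 2 => c ∈ f.W),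
      ∑ z ∈ Z, sg (MV f z) = ∑ z ∈ Z, sg (MV f z) * sg (f.M (tau u z) c) := by
    intro c hc'
    have hc : c ∈ f.W := mem_FS.1 hc'
    have h2 : ∑ z ∈ Z, sg (MV f (z + tn c u)) = ∑ z ∈ Z, sg (MV f z) := by
      have hm : ∀ z ∈ Z, z + tn c u ∈ Z := by
        intro z hz
        rw [hZ, mem_FS] at hz ⊢
        exact ⟨(WV f k).add_mem hz.1 (tn_mem hc u), hP z c hc hz.2⟩
      have hi : ∀ z : S → V k, z + tn c u + tn c u = z := fun z => by
        rw [add_assoc, tn_self, add_zero]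
      exact Finset.sum_nbij' (fun z => z + tn c u) (fun z => z + tn c u) hm hm
        (fun z _ => hi z) (fun z _ => hi z) (fun z _ => rfl)
    rw [← h2]
    refine Finset.sum_congr rfl fun z hz => ?_
    rw [hZ, mem_FS] at hz
    rw [shf hz.1 hc u, sg_add]
  have h2 := Finset.sum_congr rfl h1
  rw [Finset.sum_const, Finset.sum_comm] at h2
  have h3 : ∀ z ∈ Z, ∑ c ∈ FS (fun c : S → ZMod 2 => c ∈ f.W),
      sg (MV f z) * sg (f.M (tau u z) c) =
      if tau u z ∈ rad f then (Nat.card f.W : ℝ) * sg (MV f z) else 0 := by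
    intro z hz
    rw [hZ, mem_FS] at hz
    rw [← Finset.mul_sum, sum_sg f (tau_mem hz.1 u)]
    split_ifs
    · rw [mul_comm]
    · rw [mul_zero]
  rw [Finset.sum_congr rfl h3, ← Finset.sum_filter, ← Finset.mul_sum] at h2
  have hcard : (FS (fun c : S → ZMod 2 => c ∈ f.W)).card = Nat.card f.W := card_FS _
  rw [hcard, nsmul_eq_mul] at h2
  have hne : (Nat.card f.W : ℝ) ≠ 0 := by
    have : 0 < Nat.card f.W := Nat.card_pos
    exact_mod_cast this.ne'
  have h4 := mul_left_cancel₀ hne h2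
  rw [h4]
  refine Finset.sum_congr ?_ fun _ _ => rfl
  ext z
  rw [Finset.mem_filter, hZ, mem_FS, mem_FS, and_assoc]

theorem orb (f : Frm S) {U : Submodule (ZMod 2) (V k)} (hU : Lag 2 k U)
    (P : (S → V k) → Prop) (hP : ∀ z, ∀ c ∈ f.W, ∀ u ∈ U, P z → P (z + tn c u)) :
    ∑ z ∈ FS (fun z : S → V k => z ∈ WV f k ∧ P z), sg (MV f z) =
      ∑ z ∈ FS (fun z : S → V k => z ∈ WV f k ∧ P z ∧ ∀ u ∈ U, tau u z ∈ rad f),
        sg (MV f z) := by
  classical
  have key : ∀ A : Finset (V k), (∀ u ∈ A, u ∈ U) →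
      ∑ z ∈ FS (fun z : S → V k => z ∈ WV f k ∧ P z), sg (MV f z) =
      ∑ z ∈ FS (fun z : S → V k => z ∈ WV f k ∧ P z ∧ ∀ u ∈ A, tau u z ∈ rad f),
        sg (MV f z) := by
    intro A
    induction A using Finset.induction_on with
    | empty =>
      intro _
      refine Finset.sum_congr ?_ fun _ _ => rfl
      ext z
      rw [mem_FS, mem_FS]
      constructor
      · rintro ⟨h1, h2⟩
        exact ⟨h1, h2, fun u hu => absurd hu (Finset.notMem_empty u)⟩
      · rintro ⟨h1, h2, _⟩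
        exact ⟨h1, h2⟩
    | insert a A ha ih =>
      intro hA
      rw [ih fun u hu => hA u (Finset.mem_insert_of_mem hu)]
      have haU : a ∈ U := hA a (Finset.mem_insert_self a A)
      have h1 := orb1 f a (fun z => P z ∧ ∀ u ∈ A, tau u z ∈ rad f) (by
        intro z c hc hz
        refine ⟨hP z c hc a haU hz.1, fun u hu => ?_⟩
        rw [tau_shf, lag_w hU (hA u (Finset.mem_insert_of_mem hu)) haU, zero_smul, add_zero]
        exact hz.2 u hu)
      rw [h1]
      refine Finset.sum_congr ?_ fun _ _ => rfl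
      ext z
      rw [mem_FS, mem_FS]
      constructor
      · rintro ⟨h1, ⟨h2, h3⟩, h4⟩
        refine ⟨h1, h2, fun u hu => ?_⟩
        rcases Finset.mem_insert.1 hu with h | h
        · rw [h]
          exact h4
        · exact h3 u h
      · rintro ⟨h1, h2, h3⟩
        exact ⟨h1, ⟨h2, fun u hu => h3 u (Finset.mem_insert_of_mem hu)⟩,
          h3 a (Finset.mem_insert_self a A)⟩
  rw [key (FS (fun u : V k => u ∈ U)) (fun u hu => mem_FS.1 hu)]
  refine Finset.sum_congr ?_ fun _ _ => rfl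
  ext z
  rw [mem_FS, mem_FS]
  constructor
  · rintro ⟨h1, h2, h3⟩
    exact ⟨h1, h2, fun u hu => h3 u (mem_FS.2 hu)⟩
  · rintro ⟨h1, h2, h3⟩
    exact ⟨h1, h2, fun u hu => h3 u (mem_FS.1 hu)⟩

end Pool.Agent.H3.SA
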