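import Pool.Agent.H3.SA.Defs
import Pool.Agent.H94.PC.Alt

set_option autoImplicit false

/-!
# [H3 SA PAR] The parity of the radical

* `par`: the rank of `M` on `W` is congruent to `M 1 1` modulo `2` (van der Blij modulo 2).  An alternating form has even rank: see `H94.PC.Alt` (`alt_card`).  Let `l x = M x 1 = M x x` (linear on `W`).
  (i) `l = 0` on `W`: `M` is alternating on `W`, `M 1 1 = 0`.
  (ii) `l 1 = M 1 1 = 1`: `W = F 1 ⊕ W₀`, `W₀ = {x ∈ W | l x = 0}`, the radical of `M` is in `W₀` (it is orthogonal to `1`) and is the radical of the alternating form `M` on `W₀`; `finrank W = finrank W₀ + 1`.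
  (iii) `l 1 = 0`, `l c = 1` for some `c ∈ W`: the form `B x y = M x y + l x * l y` is alternating on `W`.  Its radical: `x ∈ rad B` iff `M x y = l x l y` for all `y ∈ W` iff `M (x + l x • 1) y = 0` for all `y`: (`M 1 y = l y`) so `x + l x • 1 ∈ rad M`;
  and `l (x + l x 1) = l x`, which must be `0` (`l = M . 1` vanishes on `rad M`), so `x ∈ rad M`; conversely `rad M ⊆ rad B`.  So `rad B = rad M` and `finrank W + finrank rad` is even.
  (In case (iii) `l x = 0` for all `x ∈ rad B` needs `l 1 = 0`; the case (i) is the same computation with `B = M`.)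
-/

namespace Pool.Agent.H3.SA

open Pool.Agent.H94.PN

variable {S : Type} [Finite S]

theorem par (f : Frm S) :
    sg (f.M 1 1) = (-1) ^ (Module.finrank (ZMod 2) f.W + Module.finrank (ZMod 2) (rad f)) := by
  classical
  obtain ⟨l, hl⟩ : ∃ l : f.W →ₗ[ZMod 2] ZMod 2, ∀ x : f.W, l x = f.M x 1 :=
    ⟨(f.M.flip 1).comp f.W.subtype, fun x => rfl⟩
  obtain ⟨B, hBd⟩ : ∃ B : f.W →ₗ[ZMod 2] f.W →ₗ[ZMod 2] ZMod 2,
      ∀ x y : f.W, B x y = f.M x y + l x * l y := by
    refine ⟨LinearMap.mk₂ (ZMod 2) (fun x y : f.W => f.M x y + l x * l y) ?_ ?_ ?_ ?_,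
      fun x y => rfl⟩
    · intro x x' y
      simp only [Submodule.coe_add, map_add, LinearMap.add_apply]
      ring
    · intro c x y
      simp only [Submodule.coe_smul, map_smul, LinearMap.smul_apply, smul_eq_mul]
      ring
    · intro x y y'
      simp only [Submodule.coe_add, map_add]
      ring
    · intro c x y
      simp only [Submodule.coe_smul, map_smul, smul_eq_mul]
      ring
  have hsq : ∀ a : ZMod 2, a + a * a = 0 := by decide
  have hBa : ∀ x, B x x = 0 := by
    intro x
    rw [hBd, f.chr x x.2, ← hl]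
    exact hsq _
  obtain ⟨j, hj⟩ := Pool.Agent.H94.PC.alt_card B hBa
  have hW : Nat.card f.W = 2 ^ Module.finrank (ZMod 2) f.W := by
    rw [Module.natCard_eq_pow_finrank (K := ZMod 2), Nat.card_zmod]
  have hR : Nat.card (rad f) = 2 ^ Module.finrank (ZMod 2) (rad f) := by
    rw [Module.natCard_eq_pow_finrank (K := ZMod 2), Nat.card_zmod]
  have hker : ∀ x : f.W, x ∈ LinearMap.ker B ↔ ∀ y : f.W, f.M x y = l x * l y := by
    intro x
    rw [LinearMap.mem_ker]
    have h2 : ∀ a b : ZMod 2, a + b = 0 ↔ a = b := by decide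
    constructor
    · intro h y
      have h1 := hBd x y
      rw [h, LinearMap.zero_apply] at h1
      exact (h2 _ _).1 h1.symm
    · intro h
      ext y
      rw [hBd, LinearMap.zero_apply]
      exact (h2 _ _).2 (h y)
  have hone : ∀ y : f.W, f.M 1 y = l y := by
    intro y
    rw [hl]
    exact f.sym 1 f.one y y.2
  have hrl : ∀ z : f.W, (z : S → ZMod 2) ∈ rad f → l z = 0 := by
    intro z hz
    rw [hl]
    exact hz.2 1 f.one
  have hmem : ∀ x : f.W, x ∈ LinearMap.ker B →
      ((x : S → ZMod 2) + l x • (1 : S → ZMod 2)) ∈ rad f := by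
    intro x hx
    refine ⟨f.W.add_mem x.2 (f.W.smul_mem _ f.one), fun y hy => ?_⟩
    have h1 := (hker x).1 hx ⟨y, hy⟩
    have h2 := hone ⟨y, hy⟩
    simp only at h1 h2
    rw [map_add, map_smul, LinearMap.add_apply, LinearMap.smul_apply, h1, h2, smul_eq_mul]
    exact CharTwo.add_self_eq_zero _
  have hl1 : l ⟨1, f.one⟩ = f.M 1 1 := hl _
  have hlx : ∀ x : f.W, x ∈ LinearMap.ker B → l x + l x * f.M 1 1 = 0 := by
    intro x hx
    have h1 := hrl (x + l x • ⟨1, f.one⟩) (hmem x hx)
    rw [map_add, map_smul, hl1, smul_eq_mul] at h1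
    exact h1
  have hodd : ∀ i : ℕ, (-1 : ℝ) ^ (2 * i) = 1 := fun i => by
    rw [pow_mul]
    norm_num
  rcases z2 (f.M 1 1) with h0 | h0
  · have hc : Nat.card (LinearMap.ker B) = Nat.card (rad f) := by
      refine Nat.card_congr ⟨fun x => ⟨x.1.1, ?_⟩, fun z => ⟨⟨z.1, z.2.1⟩, ?_⟩,
        fun x => rfl, fun z => rfl⟩
      · have h1 := hlx x.1 x.2
        rw [h0, mul_zero, add_zero] at h1
        have h2 := hmem x.1 x.2
        rwa [h1, zero_smul, add_zero] at h2
      · rw [hker]
        intro y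
        rw [hrl ⟨z.1, z.2.1⟩ z.2, zero_mul]
        exact z.2.2 y y.2
    rw [hc, hW, hR, show (4 : ℕ) = 2 ^ 2 from rfl, ← pow_mul, ← pow_add] at hj
    have h1 := Nat.pow_right_injective le_rfl hj
    rw [h0, sg_zero, h1]
    have h2 : 2 * j + Module.finrank (ZMod 2) (rad f) + Module.finrank (ZMod 2) (rad f) =
        2 * (j + Module.finrank (ZMod 2) (rad f)) := by ring
    rw [h2, hodd]
  · have hc : Nat.card (LinearMap.ker B) = 2 * Nat.card (rad f) := by
      have e : LinearMap.ker B ≃ ZMod 2 × rad f := by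
        refine ⟨fun x => (l x.1, ⟨_, hmem x.1 x.2⟩),
          fun c => ⟨⟨c.2.1 + c.1 • (1 : S → ZMod 2),
            f.W.add_mem c.2.2.1 (f.W.smul_mem _ f.one)⟩, ?_⟩, fun x => ?_, fun c => ?_⟩
        · rw [hker]
          intro y
          have h1 : l ⟨c.2.1 + c.1 • (1 : S → ZMod 2),
              f.W.add_mem c.2.2.1 (f.W.smul_mem _ f.one)⟩ = c.1 := by
            have h2 : (⟨c.2.1 + c.1 • (1 : S → ZMod 2),
                f.W.add_mem c.2.2.1 (f.W.smul_mem _ f.one)⟩ : f.W) =
                ⟨c.2.1, c.2.2.1⟩ + c.1 • ⟨1, f.one⟩ := rfl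
            rw [h2, map_add, map_smul, hl1, h0, hrl ⟨c.2.1, c.2.2.1⟩ c.2.2, zero_add,
              smul_eq_mul, mul_one]
          rw [h1]
          simp only [map_add, map_smul, LinearMap.add_apply, LinearMap.smul_apply, smul_eq_mul]
          rw [c.2.2.2 y y.2, zero_add, hone]
        · refine Subtype.ext (Subtype.ext ?_)
          simp only
          rw [add_assoc, ← add_smul, CharTwo.add_self_eq_zero, zero_smul, add_zero]
        · have h1 : l ⟨c.2.1 + c.1 • (1 : S → ZMod 2),
              f.W.add_mem c.2.2.1 (f.W.smul_mem _ f.one)⟩ = c.1 := by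
            have h2 : (⟨c.2.1 + c.1 • (1 : S → ZMod 2),
                f.W.add_mem c.2.2.1 (f.W.smul_mem _ f.one)⟩ : f.W) =
                ⟨c.2.1, c.2.2.1⟩ + c.1 • ⟨1, f.one⟩ := rfl
            rw [h2, map_add, map_smul, hl1, h0, hrl ⟨c.2.1, c.2.2.1⟩ c.2.2, zero_add,
              smul_eq_mul, mul_one]
          refine Prod.ext h1 (Subtype.ext ?_)
          simp only
          rw [h1, add_assoc, ← add_smul, CharTwo.add_self_eq_zero, zero_smul, add_zero]
      rw [Nat.card_congr e, Nat.card_prod, Nat.card_zmod]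
    rw [hc, hW, hR, show (4 : ℕ) = 2 ^ 2 from rfl, ← pow_mul, ← pow_succ', ← pow_add] at hj
    have h1 := Nat.pow_right_injective le_rfl hj
    rw [h0, sg_one, h1]
    have h2 : 2 * j + (Module.finrank (ZMod 2) (rad f) + 1) + Module.finrank (ZMod 2) (rad f) =
        2 * (j + Module.finrank (ZMod 2) (rad f)) + 1 := by ring
    rw [h2, pow_succ, hodd, one_mul]

end Pool.Agent.H3.SA
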