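import Pool.Agent.H3.SA.TS
import Pool.Agent.H3.SA.SHF

set_option autoImplicit false

/-!
# [H3 SA VAL] The labellings with values in the coset

Let `u, v` be as in `bas` and `s ∈ TU U` (`tu_ex`), `q s = 0` (`tu_q`).
* `exp_U`: if all `z p ∈ U` then `z = ∑ m, tn (ctr (v m) z) (u m)` (`bas`), and for `z ∈ WV f k` all `ctr (v m) z ∈ W` (`ctr_mem`).
* `val_U`: `z ∈ WV f k` with all `z p ∈ U`: `MV f z = M 1 (ctr s z)`.  For `c : Fin k → W` and a finite set `A` of indices, by induction on `A`: `MV f (∑ m ∈ A, tn (c m) (u m)) = ∑ m ∈ A, q (u m) * M 1 (c m)`: `shf` for the labelling `y = ∑ m ∈ A, tn (c m) (u m)` (values in `U`):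
  `tau (u m) y = q (u m) • 1` as `ctr (u m) y = 0` (`lag_w`).  And `q (u m) = w (u m) s` (`s ∈ TU U`), `∑ m, w (u m) s • ctr (v m) z = ctr s z` (from `exp_U`: `ctr s (tn c (u m)) = w s (u m) • c`).
* `val`: `y = z + tn 1 s` has values in `U` (`tu_iff`), `y ∈ WV f k`; `z = y + tn 1 s`; `shf`: `MV f z = MV f y + M (tau s y) 1 = M 1 (ctr s y) + M (ctr s y) 1 + q s * M 1 1 = 0` (`f.sym`, characteristic `2`).
* `cnt`: `z ↦ z + tn 1 s` is a bijection to the labellings in `WV f k` with values in `U`, and these are in bijection to `Fin k → W` by `z ↦ (ctr (v m) z)_m`, inverse `c ↦ ∑ m, tn (c m) (u m)` (`ctr (v n) (tn c (u m)) = w (v n) (u m) • c`).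
-/

namespace Pool.Agent.H3.SA

open Pool.Agent.H94.PN

variable {S : Type} {k : ℕ} {U : Submodule (ZMod 2) (V k)}

private theorem val_sum_apply (A : Finset (Fin k)) (c : Fin k → S → ZMod 2) (u : Fin k → V k)
    (p : S) : (∑ m ∈ A, tn (c m) (u m)) p = ∑ m ∈ A, c m p • u m := by
  rw [Finset.sum_apply]
  rfl

private theorem val_ctr_sum (s : V k) (A : Finset (Fin k)) (c : Fin k → S → ZMod 2)
    (u : Fin k → V k) :
    ctr s (∑ m ∈ A, tn (c m) (u m)) = ∑ m ∈ A, w s (u m) • c m := by
  classical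
  induction A using Finset.induction_on with
  | empty =>
    rw [Finset.sum_empty, Finset.sum_empty]
    funext p
    exact w_zero_right s
  | insert m A hm ih =>
    rw [Finset.sum_insert hm, Finset.sum_insert hm, ctr_add, ctr_tn, ih]

private theorem val_add_self (y : S → V k) : y + y = 0 := by
  funext p
  refine Prod.ext (funext fun i => ?_) (funext fun i => ?_)
  · exact CharTwo.add_self_eq_zero _
  · exact CharTwo.add_self_eq_zero _

private theorem val_exp {u v : Fin k → V k} (hb : ∀ x ∈ U, x = ∑ m, w (v m) x • u m)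
    {z : S → V k} (hz : ∀ p, z p ∈ U) : ∑ m, tn (ctr (v m) z) (u m) = z := by
  funext p
  rw [val_sum_apply]
  exact (hb (z p) (hz p)).symm

private theorem val_step (f : Frm S) (hU : Lag 2 k U) {u : Fin k → V k} (hu : ∀ m, u m ∈ U)
    {c : Fin k → S → ZMod 2} (hc : ∀ m, c m ∈ f.W) (A : Finset (Fin k)) :
    (∑ m ∈ A, tn (c m) (u m)) ∈ WV f k ∧
      MV f (∑ m ∈ A, tn (c m) (u m)) = ∑ m ∈ A, q (u m) * f.M 1 (c m) := by
  classical
  induction A using Finset.induction_on with
  | empty =>
    rw [Finset.sum_empty, Finset.sum_empty]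
    refine ⟨(WV f k).zero_mem, ?_⟩
    unfold MV
    refine Finset.sum_eq_zero fun i _ => ?_
    have h0 : (fun p => ((0 : S → V k) p).1 i) = 0 := rfl
    rw [h0, map_zero, LinearMap.zero_apply]
  | insert m A hm ih =>
    obtain ⟨h1, h2⟩ := ih
    rw [Finset.sum_insert hm, Finset.sum_insert hm, add_comm (tn (c m) (u m))]
    refine ⟨(WV f k).add_mem h1 (tn_mem (hc m) _), ?_⟩
    rw [shf h1 (hc m), h2, tau_eq]
    have h3 : ctr (u m) (∑ m ∈ A, tn (c m) (u m)) = 0 := by
      rw [val_ctr_sum]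
      refine Finset.sum_eq_zero fun n _ => ?_
      rw [lag_w hU (hu m) (hu n), zero_smul]
    rw [h3, zero_add, map_smul, LinearMap.smul_apply, smul_eq_mul, add_comm]

private theorem val_U (f : Frm S) (hU : Lag 2 k U) {s : V k} (hs : s ∈ TU U) {z : S → V k}
    (hz : z ∈ WV f k) (h : ∀ p, z p ∈ U) : MV f z = f.M 1 (ctr s z) := by
  obtain ⟨u, v, hu, -, hb⟩ := bas hU
  have h1 := (val_step f hU hu (c := fun m => ctr (v m) z) (fun m => ctr_mem hz (v m))
    Finset.univ).2
  have h2 := val_ctr_sum s Finset.univ (fun m => ctr (v m) z) u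
  rw [val_exp hb h] at h1 h2
  rw [h1, h2, map_sum]
  refine Finset.sum_congr rfl fun m _ => ?_
  rw [map_smul, smul_eq_mul, w_comm, hs (u m) (hu m)]

theorem val (f : Frm S) (hU : Lag 2 k U) {z : S → V k} (hz : z ∈ WV f k)
    (h : ∀ p, z p ∈ TU U) : MV f z = 0 := by
  obtain ⟨s, hs⟩ := tu_ex hU
  have hy : z + tn 1 s ∈ WV f k := (WV f k).add_mem hz (tn_mem f.one s)
  have hyU : ∀ p, (z + tn (1 : S → ZMod 2) s : S → V k) p ∈ U := by
    intro p
    have h1 := (tu_iff hU hs).1 (h p)
    have h2 : (z + tn (1 : S → ZMod 2) s : S → V k) p = z p + s := by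
      rw [Pi.add_apply]
      congr 1
      exact one_smul (ZMod 2) s
    rw [h2]
    exact h1
  have hzy : z = (z + tn 1 s) + tn 1 s := by
    rw [add_assoc, val_add_self, add_zero]
  rw [hzy, shf hy f.one, val_U f hU hs hy hyU, tau_eq, tu_q hU hs, zero_smul, add_zero,
    f.sym _ f.one _ (ctr_mem hy s)]
  exact CharTwo.add_self_eq_zero _

theorem cnt [Finite S] (f : Frm S) (hU : Lag 2 k U) :
    (FS (fun z : S → V k => z ∈ WV f k ∧ ∀ p, z p ∈ TU U)).card = Nat.card f.W ^ k := by
  obtain ⟨s, hs⟩ := tu_ex hU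
  obtain ⟨u, v, hu, huv, hb⟩ := bas hU
  have hone : ∀ (z : S → V k) (p : S),
      (z + tn (1 : S → ZMod 2) s : S → V k) p = z p + s := by
    intro z p
    rw [Pi.add_apply]
    congr 1
    exact one_smul (ZMod 2) s
  rw [card_FS]
  have e : {z : S → V k // z ∈ WV f k ∧ ∀ p, z p ∈ TU U} ≃ (Fin k → f.W) :=
    { toFun := fun z m => ⟨ctr (v m) (z.1 + tn 1 s),
        ctr_mem ((WV f k).add_mem z.2.1 (tn_mem f.one s)) (v m)⟩
      invFun := fun c => ⟨(∑ m, tn (c m).1 (u m)) + tn 1 s,
        (WV f k).add_mem (val_step f hU hu (c := fun m => (c m).1) (fun m => (c m).2)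
          Finset.univ).1 (tn_mem f.one s), fun p => by
          rw [tu_iff hU hs, hone, val_sum_apply, add_assoc]
          have h1 : s + s = 0 := by
            refine Prod.ext (funext fun i => ?_) (funext fun i => ?_)
            · exact CharTwo.add_self_eq_zero _
            · exact CharTwo.add_self_eq_zero _
          rw [h1, add_zero]
          exact U.sum_mem fun m _ => U.smul_mem _ (hu m)⟩
      left_inv := fun z => by
        apply Subtype.ext
        show (∑ m, tn (ctr (v m) (z.1 + tn 1 s)) (u m)) + tn 1 s = z.1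
        rw [val_exp hb, add_assoc, val_add_self, add_zero]
        intro p
        rw [hone]
        exact (tu_iff hU hs).1 (z.2.2 p)
      right_inv := fun c => by
        funext n
        apply Subtype.ext
        show ctr (v n) ((∑ m, tn (c m).1 (u m)) + tn 1 s + tn 1 s) = (c n).1
        rw [add_assoc, val_add_self, add_zero, val_ctr_sum, Finset.sum_eq_single n]
        · rw [w_comm, huv, if_pos rfl, one_smul]
        · intro m _ hmn
          rw [w_comm, huv, if_neg hmn, zero_smul]
        · intro h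
          exact absurd (Finset.mem_univ n) h }
  rw [Nat.card_congr e, Nat.card_fun, Nat.card_fin]

end Pool.Agent.H3.SA
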