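import Pool.Agent.H3.SA.ORB
import Pool.Agent.H3.SA.VAL

set_option autoImplicit false

/-!
# [H3 SA SMZ] The sum over the labellings with the labels of the three groups in three cosets

`T i = t i + U`, `t 0 + t 1 + t 2 ∈ TU U`.  `P z = Sub Med T z` is invariant under `z ↦ z + tn c u`, `u ∈ U` (`(z p + c p • u) + t i = (z p + t i) + c p • u`).  `orb`: only the `z` with `tau u z ∈ rad f` for all `u ∈ U` count.  For these `z` and `p ∈ Med i`:
`tau u z p = w u (z p) + q u = w u (t i) + q u =: a i` (`w u (z p + t i) = 0`, `lag_w`), and `a 0 + a 1 + a 2 = w u (t 0 + t 1 + t 2) + 3 q u = q u + q u = 0` (`TU`), so `tau u z = 0` by `NoTiny`; so all labels `z p` are in `TU U` (`w u (z p) = q u`).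
* If `T i = TU U` for all `i`: the set is `{z ∈ WV | ∀ p, z p ∈ TU U}` (conversely such `z` satisfy `Sub` and `tau u z = 0 ∈ rad`); `val` (`sg 0 = 1`) and `cnt`.
* If not, say `T i` is not `TU U`, the set is empty: for `p ∈ Med i` (`hne`): `z p ∈ T i ∩ TU U`; both are cosets of `U` (`hT`, `tu_iff`), so they are equal.
-/

namespace Pool.Agent.H3.SA

open Pool.Agent.H94.PN

variable {S : Type} [Finite S] {k : ℕ} {U : Submodule (ZMod 2) (V k)}

private theorem vv (v : V k) : v + v = 0 := by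
  have h3 : (2 : ZMod 2) = 0 := rfl
  rw [← two_smul (ZMod 2) v, h3, zero_smul]

private theorem aa (a : ZMod 2) : a + a = 0 := CharTwo.add_self_eq_zero _

private theorem eq_of_add {a b : ZMod 2} (h : a + b = 0) : a = b := by
  have h1 : a + b + b = b := by rw [h, zero_add]
  rwa [add_assoc, aa, add_zero] at h1

/-- two labels of the same coset -/
private theorem w_coset (hU : Lag 2 k U) {u x t : V k} (hu : u ∈ U) (h : x + t ∈ U) :
    w u x = w u t := by
  have h1 := lag_w hU hu h
  rw [w_add_right] at h1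
  exact eq_of_add h1

omit [Finite S] in
private theorem all_TU (f : Frm S) {Med : Fin 3 → Finset S}
    (hN : NoTiny f Med) (hU : Lag 2 k U) {T : Fin 3 → Finset (V k)} {t : Fin 3 → V k}
    (hT : ∀ i x, x ∈ T i ↔ x + t i ∈ U) (ht : t 0 + t 1 + t 2 ∈ TU U) {z : S → V k}
    (hs : Sub Med T z) (hr : ∀ u ∈ U, tau u z ∈ rad f) (p : S) : z p ∈ TU U := by
  intro u hu
  have h1 : tau u z = 0 := by
    refine hN _ (hr u hu) (fun i => w u (t i) + q u) ?_ ?_
    · intro i p hp
      show w u (z p) + q u = w u (t i) + q u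
      rw [w_coset hU hu ((hT i _).1 (hs i p hp))]
    · have h2 : w u (t 0) + w u (t 1) + w u (t 2) = q u := by
        rw [← w_add_right, ← w_add_right]
        exact ht u hu
      have h3 : w u (t 0) + q u + (w u (t 1) + q u) + (w u (t 2) + q u) =
          (w u (t 0) + w u (t 1) + w u (t 2)) + q u + (q u + q u) := by ring
      show w u (t 0) + q u + (w u (t 1) + q u) + (w u (t 2) + q u) = 0
      rw [h3, h2, aa]
  have h4 : w u (z p) + q u = 0 := congrFun h1 p
  exact eq_of_add h4

omit [Finite S] in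
private theorem tau_zero {z : S → V k} (h : ∀ p, z p ∈ TU U) {u : V k} (hu : u ∈ U) :
    tau u z = 0 := by
  funext p
  show w u (z p) + q u = 0
  rw [h p u hu, aa]

open Classical in
theorem smz (f : Frm S) {Med : Fin 3 → Finset S} (hne : ∀ i, (Med i).Nonempty)
    (hN : NoTiny f Med) (hU : Lag 2 k U) {T : Fin 3 → Finset (V k)} {t : Fin 3 → V k}
    (hT : ∀ i x, x ∈ T i ↔ x + t i ∈ U) (ht : t 0 + t 1 + t 2 ∈ TU U) :
    ∑ z ∈ FS (fun z : S → V k => z ∈ WV f k ∧ Sub Med T z), sg (MV f z) =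
      if ∀ i x, x ∈ T i ↔ x ∈ TU U then (Nat.card f.W : ℝ) ^ k else 0 := by
  rw [orb f hU (Sub Med T) (by
    intro z c _ u hu hz i p hp
    rw [hT]
    show z p + c p • u + t i ∈ U
    rw [add_right_comm]
    exact U.add_mem ((hT i _).1 (hz i p hp)) (U.smul_mem _ hu))]
  split_ifs with h
  · have h1 : FS (fun z : S → V k => z ∈ WV f k ∧ Sub Med T z ∧ ∀ u ∈ U, tau u z ∈ rad f) =
        FS (fun z : S → V k => z ∈ WV f k ∧ ∀ p, z p ∈ TU U) := by
      ext z
      rw [mem_FS, mem_FS]
      constructor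
      · rintro ⟨h1, h2, h3⟩
        exact ⟨h1, all_TU f hN hU hT ht h2 h3⟩
      · rintro ⟨h1, h2⟩
        refine ⟨h1, fun i p _ => (h i _).2 (h2 p), fun u hu => ?_⟩
        rw [tau_zero h2 hu]
        exact (rad f).zero_mem
    rw [h1, Finset.sum_congr rfl fun z hz => by
      rw [val f hU (mem_FS.1 hz).1 (mem_FS.1 hz).2, sg_zero]]
    rw [Finset.sum_const, cnt f hU, nsmul_eq_mul, mul_one, Nat.cast_pow]
  · refine Finset.sum_eq_zero fun z hz => ?_
    exfalso
    obtain ⟨_, h2, h3⟩ := mem_FS.1 hz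
    refine h fun i x => ?_
    obtain ⟨p, hp⟩ := hne i
    have h4 : z p ∈ TU U := all_TU f hN hU hT ht h2 h3 p
    have h5 : z p + t i ∈ U := (hT i _).1 (h2 i p hp)
    rw [hT, tu_iff hU h4]
    have h6 : x + t i = x + z p + (z p + t i) := by
      rw [add_add_add_comm, ← add_assoc, add_right_comm x (z p) (z p), add_assoc x, vv, add_zero]
    rw [h6]
    exact U.add_mem_iff_left h5

end Pool.Agent.H3.SA
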