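import Pool.Agent.H3.SA.BAS

set_option autoImplicit false

/-!
# [H3 SA TS] The coset of a Lagrangian subspace on which the quadratic form vanishes

* `tu_ex`: `q` is linear on `U` (`lag_q_add`), `ext_lin`.
* `tu_iff`: `x, s ∈ TU U`: `w u (x + s) = q u + q u = 0`, so `x + s ∈ U` (`lag_self`); conversely `w u x = w u (x + s) + w u s = 0 + q u` (`lag_w`).
* `sum_q`: `∑_{v : V k} sg (q v) = 2 ^ k`: `q (x, y) = y · x`; for `x = 0` the sum over `y` is `2 ^ k`, for `x ≠ 0` it is `0` (or by induction on `k`, or as a product over the coordinates: each factor is `2`).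
* `tu_q`: `q x = 0` for `x ∈ TU U` (the Arf invariant of `q` is `0`).  `∑_v sg (q v) = ∑_v sg (q (v + x)) = sg (q x) * ∑_v sg (q v + w v x)` (`q_add`).  Let `Q v = q v + w v x`: for `u ∈ U`: `Q (v + u) = Q v + w v u` (as `q u + w u x = 0`), so
  `2 ^ k * ∑_v sg (Q v) = ∑_v ∑_{u ∈ U} sg (Q (v + u)) = ∑_v sg (Q v) ∑_{u ∈ U} sg (w v u)`, and the inner sum is `0` unless `v ∈ U` (`lag_self`), where it is `2 ^ k` and `Q v = 0`; so `∑_v sg (Q v) = card U = 2 ^ k`.  So `2 ^ k = sg (q x) * 2 ^ k`, `sg (q x) = 1`.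
* `tu_of_const`: if `q (x + u) = q x` for all `u ∈ U` then `x ∈ TU U` (`q_add`, `w_comm`), so `q x = 0`.
* `tu_three`: `x, y, z ∈ TU U → x + y + z ∈ TU U` (`q u + q u + q u = q u`).
-/

namespace Pool.Agent.H3.SA

open Pool.Agent.H94.PN

variable {k : ℕ} {U : Submodule (ZMod 2) (V k)}

private theorem ts_dbl (s : V k) : s + s = 0 := by
  refine Prod.ext (funext fun i => ?_) (funext fun i => ?_)
  · exact CharTwo.add_self_eq_zero _
  · exact CharTwo.add_self_eq_zero _

theorem tu_ex (hU : Lag 2 k U) : ∃ s : V k, s ∈ TU U := by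
  obtain ⟨s, hs⟩ := ext_lin (U := U) (AddMonoidHom.toZModLinearMap 2
    (AddMonoidHom.mk' (fun u : U => q (u : V k)) fun a b => lag_q_add hU a.2 b.2))
  exact ⟨s, fun u hu => hs ⟨u, hu⟩⟩

theorem tu_iff (hU : Lag 2 k U) {s : V k} (hs : s ∈ TU U) {x : V k} :
    x ∈ TU U ↔ x + s ∈ U := by
  constructor
  · intro hx
    refine lag_self hU fun u hu => ?_
    rw [w_add_right, hx u hu, hs u hu]
    exact CharTwo.add_self_eq_zero _
  · intro hx u hu
    have h1 : x = (x + s) + s := by
      rw [add_assoc, ts_dbl, add_zero]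
    rw [h1, w_add_right, lag_w hU hu hx, zero_add]
    exact hs u hu

theorem sum_q (k : ℕ) : ∑ v : V k, sg (q v) = 2 ^ k := by
  classical
  have h1 : ∑ v : V k, sg (q v) = ∑ f : Fin k → ZMod 2 × ZMod 2, ∏ i, sg ((f i).2 * (f i).1) := by
    refine (Fintype.sum_equiv (Equiv.arrowProdEquivProdArrow (Fin k) (fun _ => ZMod 2)
      (fun _ => ZMod 2)) _ _ fun f => ?_).symm
    unfold q dotp
    rw [sg_sum]
    rfl
  have h2 := Finset.prod_univ_sum (fun _ : Fin k => (Finset.univ : Finset (ZMod 2 × ZMod 2)))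
    (fun _ p => sg (p.2 * p.1))
  rw [Fintype.piFinset_univ] at h2
  rw [h1, ← h2]
  have h3 : ∑ p : ZMod 2 × ZMod 2, sg (p.2 * p.1) = 2 := by
    rw [Fintype.sum_prod_type]
    have h4 : ∀ g : ZMod 2 → ℝ, ∑ a, g a = g 0 + g 1 := fun g => Fin.sum_univ_two g
    rw [h4, h4, h4]
    simp only [mul_zero, zero_mul, mul_one, sg_zero, sg_one]
    norm_num
  rw [h3, Finset.prod_const, Finset.card_univ, Fintype.card_fin]

theorem tu_q (hU : Lag 2 k U) {x : V k} (hx : x ∈ TU U) : q x = 0 := by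
  classical
  have hfin : Fintype U := Fintype.ofFinite U
  have hcU : (Fintype.card U : ℝ) = 2 ^ k := by
    have h1 := lag_card hU
    rw [Nat.card_eq_fintype_card] at h1
    exact_mod_cast h1
  obtain ⟨T, hT⟩ : ∃ T : ℝ, T = ∑ v : V k, sg (q v + w v x) := ⟨_, rfl⟩
  have e1 : (2 : ℝ) ^ k = sg (q x) * T := by
    rw [← sum_q k, ← Equiv.sum_comp (Equiv.addRight x), hT, Finset.mul_sum]
    refine Finset.sum_congr rfl fun v _ => ?_
    rw [Equiv.coe_addRight, q_add, ← sg_add]
    congr 1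
    ring
  have e2 : ∀ u : U, T = ∑ v : V k, sg (q v + w v x) * sg (w v u) := by
    intro u
    rw [hT, ← Equiv.sum_comp (Equiv.addRight (u : V k))]
    refine Finset.sum_congr rfl fun v _ => ?_
    rw [Equiv.coe_addRight, q_add, w_add_left, ← sg_add, hx u u.2]
    congr 1
    have h2 : q (u : V k) + q (u : V k) = 0 := CharTwo.add_self_eq_zero _
    linear_combination h2
  have e3 : ∀ v : V k, ∑ u : U, sg (w v u) = if v ∈ U then 2 ^ k else 0 := by
    intro v
    split_ifs with hv
    · rw [← hcU]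
      have h3 : ∀ u ∈ (Finset.univ : Finset U), sg (w v u) = 1 := by
        intro u _
        rw [lag_w hU hv u.2, sg_zero]
      rw [Finset.sum_congr rfl h3, Finset.sum_const, Finset.card_univ, nsmul_eq_mul, mul_one]
    · obtain ⟨u0, hu0⟩ : ∃ u0 : U, w v u0 ≠ 0 := by
        by_contra hc
        push Not at hc
        refine hv (lag_self hU fun u hu => ?_)
        rw [w_comm]
        exact hc ⟨u, hu⟩
      have hu1 : w v u0 = 1 := by
        rcases z2 (w v (u0 : V k)) with h4 | h4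
        · exact absurd h4 hu0
        · exact h4
      have h5 : ∑ u : U, sg (w v u) = - ∑ u : U, sg (w v u) := by
        conv_lhs => rw [← Equiv.sum_comp (Equiv.addRight u0)]
        rw [← Finset.sum_neg_distrib]
        refine Finset.sum_congr rfl fun u _ => ?_
        rw [Equiv.coe_addRight, Submodule.coe_add, w_add_right, sg_add, hu1, sg_one]
        ring
      linarith
  have e4 : (2 : ℝ) ^ k * T = 2 ^ k * 2 ^ k := by
    calc (2 : ℝ) ^ k * T = ∑ _u : U, T := by
          rw [Finset.sum_const, Finset.card_univ, nsmul_eq_mul, hcU]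
      _ = ∑ u : U, ∑ v : V k, sg (q v + w v x) * sg (w v u) :=
          Finset.sum_congr rfl fun u _ => e2 u
      _ = ∑ v : V k, sg (q v + w v x) * ∑ u : U, sg (w v u) := by
          rw [Finset.sum_comm]
          exact Finset.sum_congr rfl fun v _ => (Finset.mul_sum _ _ _).symm
      _ = ∑ v : V k, if v ∈ U then (2 : ℝ) ^ k else 0 := by
          refine Finset.sum_congr rfl fun v _ => ?_
          rw [e3]
          split_ifs with hv
          · rw [hx v hv, CharTwo.add_self_eq_zero, sg_zero, one_mul]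
          · rw [mul_zero]
      _ = 2 ^ k * 2 ^ k := by
          rw [← Finset.sum_filter, Finset.sum_const, nsmul_eq_mul]
          congr 1
          rw [← hcU]
          congr 1
          rw [Fintype.card_subtype]
  have hp : (0 : ℝ) < 2 ^ k := by positivity
  have e5 : T = 2 ^ k := mul_left_cancel₀ hp.ne' e4
  rw [e5] at e1
  rcases z2 (q x) with h6 | h6
  · exact h6
  · rw [h6, sg_one] at e1
    linarith

theorem tu_of_const {x : V k} (h : ∀ u ∈ U, q (x + u) = q x) : x ∈ TU U := by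
  intro u hu
  have h1 := h u hu
  rw [q_add] at h1
  rw [w_comm]
  have h2 : ∀ a b c : ZMod 2, a + b + c = a → c = b := by decide
  exact h2 _ _ _ h1

theorem tu_three {x y z : V k} (hx : x ∈ TU U) (hy : y ∈ TU U) (hz : z ∈ TU U) :
    x + y + z ∈ TU U := by
  intro u hu
  rw [w_add_right, w_add_right, hx u hu, hy u hu, hz u hu]
  have h2 : ∀ a : ZMod 2, a + a + a = a := by decide
  exact h2 _

theorem tu_inj (hU : Lag 2 k U) {U' : Submodule (ZMod 2) (V k)} (hU' : Lag 2 k U')
    (h : ∀ x, x ∈ TU U ↔ x ∈ TU U') : U = U' := by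
  obtain ⟨s, hs⟩ := tu_ex hU
  have hs' := (h s).1 hs
  have h1 : ∀ x : V k, x + s + s = x := fun x => by
    rw [add_assoc, ts_dbl, add_zero]
  ext x
  have h2 := tu_iff hU hs (x := x + s)
  have h3 := tu_iff hU' hs' (x := x + s)
  rw [h1] at h2 h3
  rw [← h2, ← h3]
  exact h (x + s)

theorem tu_card (hU : Lag 2 k U) : (FS (fun x : V k => x ∈ TU U)).card = 2 ^ k := by
  obtain ⟨s, hs⟩ := tu_ex hU
  have h1 : ∀ x : V k, x + s + s = x := fun x => by
    rw [add_assoc, ts_dbl, add_zero]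
  rw [card_FS, ← lag_card hU]
  refine Nat.card_congr ⟨fun x => ⟨x.1 + s, (tu_iff hU hs).1 x.2⟩,
    fun u => ⟨u.1 + s, (tu_iff hU hs).2 (by rw [h1]; exact u.2)⟩,
    fun x => Subtype.ext (h1 _), fun u => Subtype.ext (h1 _)⟩

end Pool.Agent.H3.SA
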